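import Mathlib

/-!
# Bigraphs, homomorphisms, Sidorenko's property, cut involutions, extensions

A bigraph with sides `A` and `B` is a relation `E : A → B → Prop`.
-/

set_option autoImplicit false

namespace Pool.Agent.Lib.MP_426a66_co

/-- The number of homomorphisms of the bigraph `E` into the bigraph `R` (preserving the sides). -/
noncomputable def homs {A B X Y : Type} (E : A → B → Prop) (R : X → Y → Prop) : ℕ :=
  Nat.card {p : (A → X) × (B → Y) // ∀ a b, E a b → R (p.1 a) (p.2 b)}

/-- The number of edges of a bigraph. -/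
noncomputable def edges {A B : Type} (E : A → B → Prop) : ℕ := Nat.card {p : A × B // E p.1 p.2}

/-- Sidorenko's property: for every finite bigraph `R` with sides `X`, `Y` the number of
homomorphisms `E → R` is at least `|X|^|A| |Y|^|B| (e(R) / (|X| |Y|))^e(E)`. -/
def Sidorenko {A B : Type} [Fintype A] [Fintype B] (E : A → B → Prop) : Prop :=
  ∀ (X Y : Type) [Fintype X] [Fintype Y] (R : X → Y → Prop),
    Fintype.card X ^ Fintype.card A * Fintype.card Y ^ Fintype.card B * edges R ^ edges E ≤
      homs E R * (Fintype.card X * Fintype.card Y) ^ edges E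

/-- A cut involution of the bigraph `E`: an automorphism `(φ, ψ)` with `φ² = 1`, `ψ² = 1`; the
vertices which are not fixed are divided into a left half `L ∪ M` and its mirror image, and no edge
joins the left half with its mirror image. -/
structure CutInvolution {A B : Type} (E : A → B → Prop) where
  φ : Equiv.Perm A
  ψ : Equiv.Perm B
  L : Set A
  M : Set B
  φ_inv : ∀ a, φ (φ a) = a
  ψ_inv : ∀ b, ψ (ψ b) = b
  edge : ∀ a b, E (φ a) (ψ b) ↔ E a b
  L_disj : ∀ a ∈ L, φ a ∉ L
  M_disj : ∀ b ∈ M, ψ b ∉ M
  L_fix : ∀ a, a ∉ L → φ a ∉ L → φ a = a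
  M_fix : ∀ b, b ∉ M → ψ b ∉ M → ψ b = b
  cut : ∀ a ∈ L, ∀ b ∈ M, ¬ E (φ a) b

/-- The vertices `ι j` (`j ∈ P`) form a reflective set of `E`: for any two of them there is a cut
involution which exchanges the two (one of them is in the left half) and fixes the others. -/
def Reflective {A B P : Type} (E : A → B → Prop) (ι : P → A) : Prop :=
  ∀ i k : P, i ≠ k → ∃ c : CutInvolution E, ι i ∈ c.L ∧ c.φ (ι i) = ι k ∧
    ∀ j, j ≠ i → j ≠ k → c.φ (ι j) = ι j

/-- The bigraph `E` with the new vertices `C` on the second side; the new vertex `c` is joined to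
the vertices `ι p` with `F p c`. -/
def extend {A B C P : Type} (E : A → B → Prop) (ι : P → A) (F : P → C → Prop) :
    A → B ⊕ C → Prop
  | a, Sum.inl b => E a b
  | a, Sum.inr c => ∃ p, ι p = a ∧ F p c

/-- For every `m ≥ 1` the number of vertices `c` with exactly `m` neighbours is zero or at least
the number of `m`-element subsets of `P`. -/
def Enough {P C : Type} (F : P → C → Prop) : Prop :=
  ∀ m : ℕ, 1 ≤ m → Nat.card {c : C // Nat.card {p : P // F p c} = m} = 0 ∨
    (Nat.card P).choose m ≤ Nat.card {c : C // Nat.card {p : P // F p c} = m}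

/-- Disjoint union of bigraphs. -/
def union {A B A' B' : Type} (E : A → B → Prop) (E' : A' → B' → Prop) :
    A ⊕ A' → B ⊕ B' → Prop
  | Sum.inl a, Sum.inl b => E a b
  | Sum.inr a, Sum.inr b => E' a b
  | _, _ => False

/-- The smallest class of finite bigraphs which contains all bigraphs with Sidorenko's property (for
instance all bigraphs without edges) and is closed under exchanging the two sides, disjoint unions
and the addition of new vertices attached to a reflective set. -/
inductive Built : ∀ (A B : Type) [Fintype A] [Fintype B], (A → B → Prop) → Prop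
  | base (A B : Type) [Fintype A] [Fintype B] (E : A → B → Prop) (h : Sidorenko E) : Built A B E
  | flip (A B : Type) [Fintype A] [Fintype B] (E : A → B → Prop) (h : Built A B E) :
      Built B A (fun b a => E a b)
  | union (A B A' B' : Type) [Fintype A] [Fintype B] [Fintype A'] [Fintype B']
      (E : A → B → Prop) (E' : A' → B' → Prop) (h : Built A B E) (h' : Built A' B' E') :
      Built (A ⊕ A') (B ⊕ B') (union E E')
  | extend (A B C P : Type) [Fintype A] [Fintype B] [Fintype C] [Fintype P]
      (E : A → B → Prop) (ι : P ↪ A) (F : P → C → Prop) (h : Built A B E)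
      (hι : Reflective E ι) (hF : Enough F) : Built A (B ⊕ C) (extend E ι F)

/-- The graph `L` on the vertex set `W` is the bipartite graph of the bigraph `E`. -/
def IsGraphOf {W A B : Type} (L : SimpleGraph W) (E : A → B → Prop) : Prop :=
  ∃ e : A ⊕ B ≃ W, (∀ a b, L.Adj (e (Sum.inl a)) (e (Sum.inr b)) ↔ E a b) ∧
    (∀ a a', ¬ L.Adj (e (Sum.inl a)) (e (Sum.inl a'))) ∧
    ∀ b b', ¬ L.Adj (e (Sum.inr b)) (e (Sum.inr b'))

/-- Weak supersaturation for the graph `L` on `Fin k` (the inner statement of the problem). -/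
def WeakSupersaturation (k : ℕ) (L : SimpleGraph (Fin k)) : Prop :=
  ∃ α : ℝ, α > 0 ∧ ∃ c : ℝ, c > 0 ∧ ∃ c' : ℝ, c' > 0 ∧
    ∀ (V : Type) [Fintype V] (G : SimpleGraph V),
      (Nat.card G.edgeSet : ℝ) > c * ((Fintype.card V : ℝ) ^ (2 - α)) →
      (Nat.card {f : Fin k → V // Function.Injective f ∧
          ∀ i j, L.Adj i j → G.Adj (f i) (f j)} : ℝ) ≥
        c' * (Nat.card G.edgeSet : ℝ) ^ (Nat.card L.edgeSet) /
          (Fintype.card V : ℝ) ^ (2 * (Nat.card L.edgeSet : ℤ) - (k : ℤ))

end Pool.Agent.Lib.MP_426a66_co
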