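import Pool.Agent.Lib.MP_426a66_co.H54.Core4
import Pool.Agent.Lib.MP_426a66_co.H54.Defs

/-!
# Homomorphism counts and weights
-/

set_option autoImplicit false
set_option linter.unusedSectionVars false

namespace Pool.Agent.Lib.MP_426a66_co.H54

open Finset Classical Pool.Agent.Lib.MP_426a66_co

section

variable {A B C P X Y : Type} [Fintype A] [Fintype B] [Fintype C] [Fintype P] [Fintype X]
  [Fintype Y]

/-- neighbourhoods of the second side -/
noncomputable def nb (E : A → B → Prop) (b : B) : Finset A := univ.filter (fun a => E a b)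

theorem mem_nb (E : A → B → Prop) (b : B) (a : A) : a ∈ nb E b ↔ E a b := by simp [nb]

theorem edges_eq (E : A → B → Prop) : edges E = ∑ b, (nb E b).card := by
  unfold edges
  rw [Nat.card_eq_fintype_card, Fintype.card_subtype, ← Finset.card_sigma]
  refine Finset.card_bij' (fun p _ => ⟨p.2, p.1⟩) (fun q _ => (q.2, q.1)) ?_ ?_ ?_ ?_
  · intro p hp
    rw [mem_filter] at hp
    rw [mem_sigma, mem_nb]
    exact ⟨mem_univ _, hp.2⟩
  · intro q hq
    rw [mem_sigma, mem_nb] at hq
    rw [mem_filter]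
    exact ⟨mem_univ _, hq.2⟩
  · intro p _; rfl
  · intro q _; rfl

theorem homs_eq (E : A → B → Prop) (R : X → Y → Prop) :
    homs E R = ∑ x : A → X, ∏ b, (univ.filter (fun y => ∀ a ∈ nb E b, R (x a) y)).card := by
  let e : {p : (A → X) × (B → Y) // ∀ a b, E a b → R (p.1 a) (p.2 b)} ≃
      Σ x : A → X, ∀ b : B, {y : Y // ∀ a ∈ nb E b, R (x a) y} :=
    { toFun := fun p => ⟨p.1.1, fun b => ⟨p.1.2 b, fun a ha => p.2 a b ((mem_nb E b a).mp ha)⟩⟩
      invFun := fun q => ⟨(q.1, fun b => (q.2 b).1), fun a b h => (q.2 b).2 a ((mem_nb E b a).mpr h)⟩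
      left_inv := fun p => rfl
      right_inv := fun q => rfl }
  unfold homs
  rw [Nat.card_congr e, Nat.card_eq_fintype_card, Fintype.card_sigma]
  refine Finset.sum_congr rfl (fun x _ => ?_)
  rw [Fintype.card_pi]
  refine Finset.prod_congr rfl (fun b _ => ?_)
  rw [Fintype.card_subtype]

/-- the normalised homomorphism count -/
noncomputable def Zn (E : A → B → Prop) (V : X → Y → ℝ) : ℝ :=
  ∑ x : A → X, ∏ b, cd V (nb E b) x

/-- the normalised weights of a relation -/
noncomputable def wt (R : X → Y → Prop) (D : ℝ) : X → Y → ℝ :=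
  fun x y => if R x y then (Fintype.card Y : ℝ) / D else 0

theorem wt_nonneg (R : X → Y → Prop) {D : ℝ} (hD : 0 < D) (x : X) (y : Y) : 0 ≤ wt R D x y := by
  unfold wt
  split_ifs
  · positivity
  · exact le_rfl

theorem cd_wt (R : X → Y → Prop) (D : ℝ) (S : Finset A) (x : A → X) :
    cd (wt R D) S x = (Fintype.card Y : ℝ)⁻¹ * ((Fintype.card Y : ℝ) / D) ^ S.card *
      (univ.filter (fun y => ∀ a ∈ S, R (x a) y)).card := by
  unfold cd wt
  rw [mul_assoc]
  congr 1
  rw [Finset.card_filter]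
  push_cast
  rw [Finset.mul_sum]
  refine Finset.sum_congr rfl (fun y _ => ?_)
  by_cases h : ∀ a ∈ S, R (x a) y
  · rw [if_pos h, mul_one, ← Finset.prod_const]
    exact Finset.prod_congr rfl (fun a ha => by rw [if_pos (h a ha)])
  · rw [if_neg h, mul_zero]
    push Not at h
    obtain ⟨a, ha, hR⟩ := h
    exact Finset.prod_eq_zero ha (by rw [if_neg hR])

theorem Zn_wt (E : A → B → Prop) (R : X → Y → Prop) (D : ℝ) :
    Zn E (wt R D) = (Fintype.card Y : ℝ)⁻¹ ^ Fintype.card B *
      ((Fintype.card Y : ℝ) / D) ^ edges E * homs E R := by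
  unfold Zn
  rw [homs_eq, edges_eq]
  push_cast
  rw [Finset.mul_sum]
  refine Finset.sum_congr rfl (fun x _ => ?_)
  simp only [cd_wt]
  rw [Finset.prod_mul_distrib, Finset.prod_mul_distrib, Finset.prod_const, Finset.card_univ,
    Finset.prod_pow_eq_pow_sum]

theorem half_of_cut {E : A → B → Prop} (c : CutInvolution E) : Half c.φ c.L :=
  ⟨c.φ_inv, c.L_disj, c.L_fix⟩

theorem refSym_of (E : A → B → Prop) (ι : P ↪ A) (hι : Reflective E ι) {V : X → Y → ℝ}
    (hV : ∀ x y, 0 ≤ V x y) : RefSym ι (fun x : A → X => ∏ b, cd V (nb E b) x) := by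
  intro i k hik
  obtain ⟨c, hi, hik', hfix⟩ := hι i k hik
  refine ⟨c.φ, c.L, half_of_cut c, ?_, hi, ?_⟩
  · refine pd_family hV (half_of_cut c) univ (nb E) c.ψ c.M (fun b _ => mem_univ _)
      (fun b _ => c.ψ_inv b) (fun b _ => c.M_disj b) ?_ (fun b _ => c.M_fix b) ?_
    · intro b _
      ext a
      rw [Finset.mem_map_equiv, mem_nb, mem_nb]
      have h1 : c.φ.symm a = c.φ a := by
        rw [Equiv.symm_apply_eq, c.φ_inv]
      rw [h1, ← c.edge (c.φ a) b, c.φ_inv]
    · intro b _ hb a ha h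
      rw [mem_nb] at ha
      have := c.cut _ h b hb
      rw [c.φ_inv] at this
      exact this ha
  · intro j
    by_cases h1 : j = i
    · rw [h1, Equiv.swap_apply_left, hik']
    · by_cases h2 : j = k
      · rw [h2, Equiv.swap_apply_right, ← hik', c.φ_inv]
      · rw [Equiv.swap_apply_of_ne_of_ne h1 h2, hfix j h1 h2]

/-- The new vertices do not decrease the normalised count. -/
theorem Zn_extend [Nonempty X] [Nonempty Y] (E : A → B → Prop) (ι : P ↪ A)
    (hι : Reflective E ι) (F : P → C → Prop) {V : X → Y → ℝ} (hV : ∀ x y, 0 ≤ V x y)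
    (hd : ∀ x, 1 ≤ (Fintype.card Y : ℝ)⁻¹ * ∑ y, V x y)
    (hcount : ∀ m : ℕ, 1 ≤ m → (univ.filter (fun c => (nb F c).card = m)).card = 0 ∨
      (Fintype.card P).choose m ≤ (univ.filter (fun c => (nb F c).card = m)).card) :
    Zn E V ≤ Zn (extend E ι F) V := by
  have h1 := core hV hd ι (w := fun x : A → X => ∏ b, cd V (nb E b) x)
    (fun x => Finset.prod_nonneg (fun b _ => cd_nonneg hV _ _)) (refSym_of E ι hι hV) (nb F) hcount
  unfold Zn
  refine h1.trans (le_of_eq (Finset.sum_congr rfl (fun x _ => ?_)))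
  rw [Fintype.prod_sum_type]
  congr 1
  refine Finset.prod_congr rfl (fun c _ => ?_)
  congr 1
  ext a
  rw [Finset.mem_map, mem_nb]
  constructor
  · rintro ⟨p, hp, rfl⟩
    exact ⟨p, rfl, (mem_nb F c p).mp hp⟩
  · rintro ⟨p, rfl, hp⟩
    exact ⟨p, (mem_nb F c p).mpr hp, rfl⟩

/-- Condition (MD): the normalised count is at least `|X|^|A|` if all degrees are at least `D`. -/
def MD (E : A → B → Prop) : Prop :=
  ∀ (X Y : Type) [Fintype X] [Fintype Y] [Nonempty X] [Nonempty Y] (R : X → Y → Prop) (D : ℕ),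
    1 ≤ D → (∀ x, D ≤ (univ.filter (fun y => R x y)).card) →
    (Fintype.card X : ℝ) ^ Fintype.card A ≤ Zn E (wt R D)

theorem MD_of_sidorenko (E : A → B → Prop) (hE : Sidorenko E) : MD E := by
  intro X Y _ _ _ _ R D hD hdeg
  have hD0 : (0 : ℝ) < D := by exact_mod_cast hD
  have hX0 : (0 : ℝ) < Fintype.card X := by exact_mod_cast Fintype.card_pos
  have hY0 : (0 : ℝ) < Fintype.card Y := by exact_mod_cast Fintype.card_pos
  have h1 := hE X Y R
  have h2 : Fintype.card X * D ≤ edges R := by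
    have h3 : edges R = ∑ x, (univ.filter (fun y => R x y)).card := by
      unfold edges
      rw [Nat.card_eq_fintype_card, Fintype.card_subtype, ← Finset.card_sigma]
      refine Finset.card_bij' (fun p _ => ⟨p.1, p.2⟩) (fun q _ => (q.1, q.2)) ?_ ?_ ?_ ?_
      · intro p hp
        rw [mem_filter] at hp
        rw [mem_sigma, mem_filter]
        exact ⟨mem_univ _, mem_univ _, hp.2⟩
      · intro q hq
        rw [mem_sigma, mem_filter] at hq
        rw [mem_filter]
        exact ⟨mem_univ _, hq.2.2⟩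
      · intro p _; rfl
      · intro q _; rfl
    rw [h3]
    calc Fintype.card X * D = ∑ _x : X, D := by rw [Finset.sum_const, Finset.card_univ, smul_eq_mul]
      _ ≤ _ := Finset.sum_le_sum (fun x _ => hdeg x)
  have h4 : (Fintype.card X : ℝ) ^ Fintype.card A * (Fintype.card Y : ℝ) ^ Fintype.card B *
      ((Fintype.card X : ℝ) * D) ^ edges E ≤
      homs E R * ((Fintype.card X : ℝ) * Fintype.card Y) ^ edges E := by
    have h5 : Fintype.card X ^ Fintype.card A * Fintype.card Y ^ Fintype.card B *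
      (Fintype.card X * D) ^ edges E ≤
      homs E R * (Fintype.card X * Fintype.card Y) ^ edges E :=
      le_trans (Nat.mul_le_mul le_rfl (Nat.pow_le_pow_left h2 _)) h1
    exact_mod_cast h5
  rw [Zn_wt, div_pow, inv_pow]
  have h6 : (Fintype.card X : ℝ) ^ Fintype.card A * (Fintype.card Y : ℝ) ^ Fintype.card B *
      (D : ℝ) ^ edges E ≤ homs E R * (Fintype.card Y : ℝ) ^ edges E := by
    rw [mul_pow, mul_pow] at h4
    have h7 : (0 : ℝ) < (Fintype.card X : ℝ) ^ edges E := by positivity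
    refine le_of_mul_le_mul_left ?_ h7
    calc (Fintype.card X : ℝ) ^ edges E * ((Fintype.card X : ℝ) ^ Fintype.card A *
          (Fintype.card Y : ℝ) ^ Fintype.card B * (D : ℝ) ^ edges E)
        = (Fintype.card X : ℝ) ^ Fintype.card A * (Fintype.card Y : ℝ) ^ Fintype.card B *
          ((Fintype.card X : ℝ) ^ edges E * (D : ℝ) ^ edges E) := by ring
      _ ≤ _ := h4
      _ = _ := by ring
  have h8 : ((Fintype.card Y : ℝ) ^ Fintype.card B)⁻¹ *
      ((Fintype.card Y : ℝ) ^ edges E / (D : ℝ) ^ edges E) * (homs E R : ℝ) =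
      (homs E R * (Fintype.card Y : ℝ) ^ edges E) /
        ((Fintype.card Y : ℝ) ^ Fintype.card B * (D : ℝ) ^ edges E) := by
    field_simp
  rw [h8, le_div_iff₀ (by positivity)]
  calc (Fintype.card X : ℝ) ^ Fintype.card A *
        ((Fintype.card Y : ℝ) ^ Fintype.card B * (D : ℝ) ^ edges E) =
      (Fintype.card X : ℝ) ^ Fintype.card A * (Fintype.card Y : ℝ) ^ Fintype.card B *
      (D : ℝ) ^ edges E := by ring
    _ ≤ _ := h6

theorem wt_deg [Nonempty Y] (R : X → Y → Prop) (D : ℕ) (hD : 1 ≤ D)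
    (hdeg : ∀ x, D ≤ (univ.filter (fun y => R x y)).card) (x : X) :
    1 ≤ (Fintype.card Y : ℝ)⁻¹ * ∑ y, wt R D x y := by
  have hD0 : (0 : ℝ) < D := by exact_mod_cast hD
  have hY0 : (0 : ℝ) < Fintype.card Y := by exact_mod_cast Fintype.card_pos
  unfold wt
  rw [← Finset.sum_filter, Finset.sum_const, nsmul_eq_mul]
  have h1 : (D : ℝ) ≤ (univ.filter (fun y => R x y)).card := by exact_mod_cast hdeg x
  have h2 : (Fintype.card Y : ℝ)⁻¹ * (((univ.filter (fun y => R x y)).card : ℝ) *
      ((Fintype.card Y : ℝ) / D)) = ((univ.filter (fun y => R x y)).card : ℝ) / D := by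
    field_simp
  rw [h2, le_div_iff₀ hD0, one_mul]
  exact h1

/-- The extension satisfies (MD). -/
theorem MD_extend (E : A → B → Prop) (hE : Sidorenko E) (ι : P ↪ A) (hι : Reflective E ι)
    (F : P → C → Prop)
    (hcount : ∀ m : ℕ, 1 ≤ m → (univ.filter (fun c => (nb F c).card = m)).card = 0 ∨
      (Fintype.card P).choose m ≤ (univ.filter (fun c => (nb F c).card = m)).card) :
    MD (extend E ι F) := by
  intro X Y _ _ _ _ R D hD hdeg
  have hD0 : (0 : ℝ) < D := by exact_mod_cast hD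
  exact (MD_of_sidorenko E hE X Y R D hD hdeg).trans
    (Zn_extend E ι hι F (wt_nonneg R hD0) (wt_deg R D hD hdeg) hcount)

end

end Pool.Agent.Lib.MP_426a66_co.H54
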