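import Pool.Agent.Lib.MP_426a66_co.H54.Comb1

/-!
# From lower bounds under a minimum degree condition to Sidorenko's property
-/

set_option autoImplicit false
set_option linter.unusedSectionVars false

namespace Pool.Agent.Lib.MP_426a66_co.H54

open Finset Classical Pool.Agent.Lib.MP_426a66_co

section

variable {A B X Y : Type} [Fintype A] [Fintype B] [Fintype X] [Fintype Y]

theorem edges_deg (R : X → Y → Prop) : edges R = ∑ x, (univ.filter (fun y => R x y)).card := by
  unfold edges
  rw [Nat.card_eq_fintype_card, Fintype.card_subtype, ← Finset.card_sigma]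
  refine Finset.card_bij' (fun p _ => ⟨p.1, p.2⟩) (fun q _ => (q.1, q.2)) ?_ ?_ ?_ ?_
  · intro p hp
    rw [mem_filter] at hp
    rw [mem_sigma, mem_filter]
    exact ⟨mem_univ _, mem_univ _, hp.2⟩
  · intro q hq
    rw [mem_sigma, mem_filter] at hq
    rw [mem_filter]
    exact ⟨mem_univ _, hq.2.2⟩
  · intro p _; rfl
  · intro q _; rfl

theorem edges_layers (R : X → Y → Prop) : edges R =
    ∑ D ∈ range (Fintype.card Y),
      (univ.filter (fun x => D + 1 ≤ (univ.filter (fun y => R x y)).card)).card := by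
  rw [edges_deg]
  have h1 : ∀ D, (univ.filter (fun x => D + 1 ≤ (univ.filter (fun y => R x y)).card)).card =
      ∑ x, if D + 1 ≤ (univ.filter (fun y => R x y)).card then 1 else 0 :=
    fun D => Finset.card_filter _ _
  simp only [h1]
  rw [Finset.sum_comm]
  refine Finset.sum_congr rfl (fun x _ => ?_)
  rw [← Finset.card_filter]
  set d := (univ.filter (fun y => R x y)).card with hd
  have hdY : d ≤ Fintype.card Y := by
    rw [hd]; exact Finset.card_le_univ _
  have : (range (Fintype.card Y)).filter (fun D => D + 1 ≤ d) = range d := by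
    ext D
    rw [mem_filter, mem_range, mem_range]
    omega
  rw [this, card_range]

/-- isolated vertices -/
def Iso (E : A → B → Prop) (a : A) : Prop := ∀ b, ¬ E a b

theorem homs_restrict (E : A → B → Prop) (R : X → Y → Prop) (Q : X → Prop) :
    homs E (fun (x : {x // Q x}) y => R x.1 y) * Fintype.card X ^ Fintype.card {a // Iso E a} ≤
      homs E R * Fintype.card {x // Q x} ^ Fintype.card {a // Iso E a} := by
  unfold homs
  rw [Nat.card_eq_fintype_card, Nat.card_eq_fintype_card, ← Fintype.card_fun, ← Fintype.card_fun,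
    ← Fintype.card_prod, ← Fintype.card_prod]
  refine Fintype.card_le_of_injective
    (fun q => (⟨(fun a => if h : Iso E a then q.2 ⟨a, h⟩ else (q.1.1.1 a).1, q.1.1.2), ?_⟩,
      fun a => q.1.1.1 a.1)) ?_
  · intro a b hab
    have h : ¬ Iso E a := fun h => h b hab
    simp only [dif_neg h]
    exact q.1.2 a b hab
  · rintro ⟨⟨⟨f, g⟩, hfg⟩, u⟩ ⟨⟨⟨f', g'⟩, hfg'⟩, u'⟩ h
    simp only [Prod.mk.injEq, Subtype.mk.injEq] at h
    obtain ⟨⟨h1, h2⟩, h3⟩ := h
    have h4 : f = f' := by
      funext a
      by_cases ha : Iso E a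
      · exact congrFun h3 ⟨a, ha⟩
      · have := congrFun h1 a
        simp only [dif_neg ha] at this
        exact Subtype.ext this
    have h5 : u = u' := by
      funext a
      have := congrFun h1 a.1
      simp only [dif_pos a.2] at this
      exact this
    subst h4; subst h5; subst h2
    rfl

theorem card_nonIso (E : A → B → Prop) :
    ∃ a : ℕ, a ≤ edges E ∧ Fintype.card A = Fintype.card {a // Iso E a} + a := by
  refine ⟨Fintype.card {a // ¬ Iso E a}, ?_, ?_⟩
  · unfold edges
    rw [Nat.card_eq_fintype_card]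
    have hch : ∀ a : {a // ¬ Iso E a}, ∃ b, E a.1 b := fun a => by
      have := a.2
      unfold Iso at this
      push Not at this
      exact this
    choose b hb using hch
    refine Fintype.card_le_of_injective (fun a => ⟨(a.1, b a), hb a⟩) ?_
    intro a a' h
    have := congrArg (fun q => q.1.1) h
    exact Subtype.ext this
  · rw [Fintype.card_subtype_compl]
    have := Fintype.card_subtype_le (fun a => Iso E a)
    omega

/-- the inequality for one level -/
theorem level [Nonempty X] [Nonempty Y] (E : A → B → Prop) (hE : MD E) (he : 1 ≤ edges E)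
    (R : X → Y → Prop) (D : ℕ) (hD : 1 ≤ D) :
    (((univ.filter (fun x => D ≤ (univ.filter (fun y => R x y)).card)).card : ℝ) * D) ^ edges E *
      ((Fintype.card X : ℝ) ^ Fintype.card A * (Fintype.card Y : ℝ) ^ Fintype.card B) ≤
      homs E R * ((Fintype.card X : ℝ) * Fintype.card Y) ^ edges E := by
  have hD0 : (0 : ℝ) < D := by exact_mod_cast hD
  have hX0 : (0 : ℝ) < Fintype.card X := by exact_mod_cast Fintype.card_pos
  have hY0 : (0 : ℝ) < Fintype.card Y := by exact_mod_cast Fintype.card_pos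
  obtain ⟨Q, hQ⟩ : ∃ Q : X → Prop, ∀ x, Q x ↔ D ≤ (univ.filter (fun y => R x y)).card :=
    ⟨fun x => D ≤ (univ.filter (fun y => R x y)).card, fun x => Iff.rfl⟩
  have hcard : (univ.filter (fun x => D ≤ (univ.filter (fun y => R x y)).card)).card =
      Fintype.card {x // Q x} := by
    rw [Fintype.card_subtype]
    congr 1
    exact Finset.filter_congr (fun x _ => (hQ x).symm)
  rw [hcard]
  by_cases hne : Nonempty {x // Q x}
  swap
  · rw [not_nonempty_iff] at hne
    rw [Fintype.card_eq_zero, Nat.cast_zero, zero_mul, zero_pow (by omega), zero_mul]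
    positivity
  have hq0 : (0 : ℝ) < Fintype.card {x // Q x} := by exact_mod_cast Fintype.card_pos
  have h1 := hE {x // Q x} Y (fun x y => R x.1 y) D hD (fun x => (hQ x.1).mp x.2)
  rw [Zn_wt, div_pow, inv_pow] at h1
  set h' := homs E (fun (x : {x // Q x}) y => R x.1 y) with hh'
  set q : ℝ := ((Fintype.card {x // Q x} : ℕ) : ℝ) with hq
  set n : ℝ := ((Fintype.card X : ℕ) : ℝ) with hn
  set m : ℝ := ((Fintype.card Y : ℕ) : ℝ) with hm'
  have h2 : q ^ Fintype.card A * (m ^ Fintype.card B * (D : ℝ) ^ edges E) ≤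
      h' * m ^ edges E := by
    have h8 : (m ^ Fintype.card B)⁻¹ * (m ^ edges E / (D : ℝ) ^ edges E) * (h' : ℝ) =
        (h' * m ^ edges E) / (m ^ Fintype.card B * (D : ℝ) ^ edges E) := by
      field_simp
    rw [h8, le_div_iff₀ (by positivity)] at h1
    exact h1
  have h3 : (h' : ℝ) * n ^ Fintype.card {a // Iso E a} ≤
      homs E R * q ^ Fintype.card {a // Iso E a} := by
    have := homs_restrict E R Q
    rw [hn, hq]
    exact_mod_cast this
  obtain ⟨a, ha, hA⟩ := card_nonIso E
  set i := Fintype.card {a // Iso E a} with hi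
  set e := edges E with he'
  rw [hA] at h2 ⊢
  rw [pow_add] at h2
  have hqn : q ≤ n := by
    rw [hq, hn]
    exact_mod_cast Fintype.card_subtype_le Q
  -- cancel q^i
  have h4 : q ^ a * (m ^ Fintype.card B * (D : ℝ) ^ e) * n ^ i ≤ homs E R * m ^ e := by
    have hqi : 0 < q ^ i := by positivity
    refine le_of_mul_le_mul_left ?_ hqi
    calc q ^ i * (q ^ a * (m ^ Fintype.card B * (D : ℝ) ^ e) * n ^ i)
        = (q ^ i * q ^ a * (m ^ Fintype.card B * (D : ℝ) ^ e)) * n ^ i := by ring
      _ ≤ (h' * m ^ e) * n ^ i := by gcongr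
      _ = (h' * n ^ i) * m ^ e := by ring
      _ ≤ (homs E R * q ^ i) * m ^ e := by gcongr
      _ = _ := by ring
  have h5 : q ^ e ≤ q ^ a * n ^ (e - a) := by
    calc q ^ e = q ^ a * q ^ (e - a) := by rw [← pow_add, Nat.add_sub_cancel' ha]
      _ ≤ q ^ a * n ^ (e - a) := by gcongr
  calc (q * D) ^ e * (n ^ (i + a) * m ^ Fintype.card B)
      = q ^ e * (D : ℝ) ^ e * (n ^ (i + a) * m ^ Fintype.card B) := by rw [mul_pow]
    _ ≤ (q ^ a * n ^ (e - a)) * (D : ℝ) ^ e * (n ^ (i + a) * m ^ Fintype.card B) := by gcongr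
    _ = (q ^ a * (m ^ Fintype.card B * (D : ℝ) ^ e) * n ^ i) * (n ^ (e - a) * n ^ a) := by
        rw [pow_add]; ring
    _ = (q ^ a * (m ^ Fintype.card B * (D : ℝ) ^ e) * n ^ i) * n ^ e := by
        rw [← pow_add, Nat.sub_add_cancel ha]
    _ ≤ (homs E R * m ^ e) * n ^ e := by gcongr
    _ = homs E R * (n * m) ^ e := by rw [mul_pow]; ring

/-- Sidorenko's inequality with a logarithmic loss -/
theorem weak [Nonempty X] [Nonempty Y] (E : A → B → Prop) (hE : MD E) (he : 1 ≤ edges E)
    (R : X → Y → Prop) :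
    (edges R : ℝ) ^ edges E *
      ((Fintype.card X : ℝ) ^ Fintype.card A * (Fintype.card Y : ℝ) ^ Fintype.card B) ≤
      homs E R * ((Fintype.card X : ℝ) * Fintype.card Y) ^ edges E *
        (1 + Real.log (Fintype.card Y)) ^ edges E := by
  have hX0 : (0 : ℝ) < Fintype.card X := by exact_mod_cast Fintype.card_pos
  have hY0 : (0 : ℝ) < Fintype.card Y := by exact_mod_cast Fintype.card_pos
  set e := edges E with he'
  set T : ℝ := (Fintype.card X : ℝ) ^ Fintype.card A * (Fintype.card Y : ℝ) ^ Fintype.card B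
    with hT
  have hT0 : 0 < T := by positivity
  set U : ℝ := homs E R * ((Fintype.card X : ℝ) * Fintype.card Y) ^ e with hU
  have hU0 : 0 ≤ U := by positivity
  set κ : ℝ := (U / T) ^ ((e : ℝ)⁻¹) with hκ
  have hκ0 : 0 ≤ κ := Real.rpow_nonneg (by positivity) _
  have hκe : κ ^ e * T = U := by
    rw [hκ, ← Real.rpow_natCast, ← Real.rpow_mul (by positivity), inv_mul_cancel₀ (by
      have : (1 : ℝ) ≤ e := by exact_mod_cast he
      positivity), Real.rpow_one, div_mul_cancel₀ _ hT0.ne']
  have hlev : ∀ D : ℕ, 1 ≤ D →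
      ((univ.filter (fun x => D ≤ (univ.filter (fun y => R x y)).card)).card : ℝ) ≤
        κ * (D : ℝ)⁻¹ := by
    intro D hD
    have hD0 : (0 : ℝ) < D := by exact_mod_cast hD
    have h1 := level E hE he R D hD
    rw [← hT, ← hU, ← hκe] at h1
    have h2 := le_of_mul_le_mul_right h1 hT0
    have h3 := le_of_pow_le_pow_left₀ (by omega) hκ0 h2
    rw [← div_eq_mul_inv, le_div_iff₀ hD0]
    exact h3
  have h4 : (edges R : ℝ) ≤ κ * (1 + Real.log (Fintype.card Y)) := by
    rw [edges_layers]
    push_cast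
    calc ∑ D ∈ range (Fintype.card Y),
          ((univ.filter (fun x => D + 1 ≤ (univ.filter (fun y => R x y)).card)).card : ℝ)
        ≤ ∑ D ∈ range (Fintype.card Y), κ * (((D + 1 : ℕ) : ℝ))⁻¹ :=
          Finset.sum_le_sum (fun D _ => hlev (D + 1) (by omega))
      _ = κ * ((harmonic (Fintype.card Y) : ℚ) : ℝ) := by
          rw [← Finset.mul_sum]
          congr 1
          unfold harmonic
          push_cast
          rfl
      _ ≤ κ * (1 + Real.log (Fintype.card Y)) := by
          gcongr
          exact harmonic_le_one_add_log _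
  have hlog : 0 ≤ 1 + Real.log (Fintype.card Y) := by
    have : 0 ≤ Real.log (Fintype.card Y) := Real.log_natCast_nonneg _
    linarith
  calc (edges R : ℝ) ^ e * T ≤ (κ * (1 + Real.log (Fintype.card Y))) ^ e * T := by gcongr
    _ = κ ^ e * T * (1 + Real.log (Fintype.card Y)) ^ e := by rw [mul_pow]; ring
    _ = _ := by rw [hκe]

/-! ### Tensor powers -/

/-- tensor power of a relation -/
def tpow (R : X → Y → Prop) (N : ℕ) : (Fin N → X) → (Fin N → Y) → Prop :=
  fun x y => ∀ n, R (x n) (y n)

theorem edges_tpow (R : X → Y → Prop) (N : ℕ) : edges (tpow R N) = edges R ^ N := by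
  unfold edges
  have e : {p : (Fin N → X) × (Fin N → Y) // tpow R N p.1 p.2} ≃
      (Fin N → {p : X × Y // R p.1 p.2}) :=
    { toFun := fun p n => ⟨(p.1.1 n, p.1.2 n), p.2 n⟩
      invFun := fun q => ⟨(fun n => (q n).1.1, fun n => (q n).1.2), fun n => (q n).2⟩
      left_inv := fun p => rfl
      right_inv := fun q => rfl }
  rw [Nat.card_congr e, Nat.card_fun, Nat.card_fin]

theorem homs_tpow (E : A → B → Prop) (R : X → Y → Prop) (N : ℕ) :
    homs E (tpow R N) = homs E R ^ N := by
  unfold homs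
  have e : {p : (A → Fin N → X) × (B → Fin N → Y) // ∀ a b, E a b → tpow R N (p.1 a) (p.2 b)} ≃
      (Fin N → {p : (A → X) × (B → Y) // ∀ a b, E a b → R (p.1 a) (p.2 b)}) :=
    { toFun := fun p n => ⟨(fun a => p.1.1 a n, fun b => p.1.2 b n), fun a b h => p.2 a b h n⟩
      invFun := fun q => ⟨(fun a n => (q n).1.1 a, fun b n => (q n).1.2 b),
        fun a b h n => (q n).2 a b h⟩
      left_inv := fun p => rfl
      right_inv := fun q => rfl }
  rw [Nat.card_congr e, Nat.card_fun, Nat.card_fin]

theorem le_of_pow_le_poly {ρ σ c : ℝ} {e : ℕ} (hσ : 0 ≤ σ) (hc : 0 ≤ c)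
    (h : ∀ N : ℕ, 1 ≤ N → ρ ^ N ≤ σ ^ N * (1 + N * c) ^ e) : ρ ≤ σ := by
  by_contra hlt
  push Not at hlt
  rcases hσ.eq_or_lt with h0 | h0
  · have := h 1 le_rfl
    rw [← h0] at this
    simp at this
    rw [← h0] at hlt
    linarith
  have hr : 1 < ρ / σ := by rwa [one_lt_div h0]
  have ht := tendsto_pow_const_div_const_pow_of_one_lt e hr
  have hb : ∀ N : ℕ, 1 ≤ N → ((1 + c) ^ e)⁻¹ ≤ (N : ℝ) ^ e / (ρ / σ) ^ N := by
    intro N hN
    have hN1 : (1 : ℝ) ≤ N := by exact_mod_cast hN
    have h1 := h N hN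
    have h2 : (ρ / σ) ^ N ≤ (1 + N * c) ^ e := by
      rw [div_pow, div_le_iff₀ (by positivity)]
      linarith
    have h3 : (1 + N * c) ^ e ≤ ((1 + c) * N) ^ e := by
      gcongr
      nlinarith
    rw [le_div_iff₀ (by positivity), inv_mul_le_iff₀ (by positivity), ← mul_pow]
    exact h2.trans h3
  have hlim := ge_of_tendsto ht (Filter.eventually_atTop.mpr ⟨1, hb⟩)
  have : 0 < ((1 + c) ^ e)⁻¹ := by positivity
  linarith

/-- (MD) implies Sidorenko's property. -/
theorem sidorenko_of_MD (E : A → B → Prop) (hE : MD E) : Sidorenko E := by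
  intro X Y _ _ R
  rcases Nat.eq_zero_or_pos (edges E) with he | he
  · have hno : ∀ a b, ¬ E a b := by
      intro a b hab
      unfold edges at he
      rw [Nat.card_eq_fintype_card, Fintype.card_eq_zero_iff] at he
      exact he.elim ⟨(a, b), hab⟩
    rw [he, pow_zero, pow_zero, mul_one, mul_one]
    unfold homs
    rw [Nat.card_eq_fintype_card, ← Fintype.card_fun, ← Fintype.card_fun, ← Fintype.card_prod]
    exact Fintype.card_le_of_injective (fun p => ⟨p, fun a b h => absurd h (hno a b)⟩)
      (fun p q h => congrArg Subtype.val h)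
  by_cases hR : edges R = 0
  · rw [hR, zero_pow (by omega), mul_zero]
    exact Nat.zero_le _
  have hne : Nonempty {p : X × Y // R p.1 p.2} := by
    by_contra hcon
    rw [not_nonempty_iff] at hcon
    apply hR
    unfold edges
    exact Nat.card_of_isEmpty
  obtain ⟨⟨⟨x₀, y₀⟩, -⟩⟩ := hne
  have : Nonempty X := ⟨x₀⟩
  have : Nonempty Y := ⟨y₀⟩
  have key : (edges R : ℝ) ^ edges E *
      ((Fintype.card X : ℝ) ^ Fintype.card A * (Fintype.card Y : ℝ) ^ Fintype.card B) ≤
      homs E R * ((Fintype.card X : ℝ) * Fintype.card Y) ^ edges E := by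
    refine le_of_pow_le_poly (c := Real.log (Fintype.card Y)) (e := edges E)
      (by positivity) (Real.log_natCast_nonneg _) (fun N hN => ?_)
    have h1 := weak E hE he (tpow R N)
    rw [edges_tpow, homs_tpow, Fintype.card_fun, Fintype.card_fun, Fintype.card_fin] at h1
    push_cast at h1
    rw [Real.log_pow] at h1
    calc ((edges R : ℝ) ^ edges E *
          ((Fintype.card X : ℝ) ^ Fintype.card A * (Fintype.card Y : ℝ) ^ Fintype.card B)) ^ N
        = ((edges R : ℝ) ^ N) ^ edges E * (((Fintype.card X : ℝ) ^ N) ^ Fintype.card A *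
          ((Fintype.card Y : ℝ) ^ N) ^ Fintype.card B) := by
          rw [mul_pow, mul_pow, ← pow_mul, ← pow_mul, ← pow_mul, ← pow_mul, ← pow_mul, ← pow_mul,
            mul_comm (edges E) N, mul_comm (Fintype.card A) N, mul_comm (Fintype.card B) N]
      _ ≤ _ := h1
      _ = _ := by
          congr 1
          ring
  have h2 : ((Fintype.card X ^ Fintype.card A * Fintype.card Y ^ Fintype.card B *
      edges R ^ edges E : ℕ) : ℝ) ≤
      ((homs E R * (Fintype.card X * Fintype.card Y) ^ edges E : ℕ) : ℝ) := by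
    push_cast
    linarith
  exact_mod_cast h2

end

end Pool.Agent.Lib.MP_426a66_co.H54
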