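import Mathlib

/-!
# Reflections: the Cauchy-Schwarz step

Functions `x : A → X`; an involution `φ` of `A`, a set `L` of moved points meeting every moved pair
in exactly one point.
-/

set_option autoImplicit false
set_option linter.unusedSectionVars false

namespace Pool.Agent.Lib.MP_426a66_co.H54

open Finset Classical

/-- `x` outside `S`, `t` on `S` -/
noncomputable def mix {A X : Type} (S : Set A) (x t : A → X) : A → X := fun a => if a ∈ S then t a else x a

/-- `L` contains exactly one point of every pair moved by the involution `φ`. -/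
structure Half {A : Type} (φ : Equiv.Perm A) (L : Set A) : Prop where
  inv : ∀ a, φ (φ a) = a
  disj : ∀ a ∈ L, φ a ∉ L
  fix : ∀ a, a ∉ L → φ a ∉ L → φ a = a

/-- `f` does not depend on the coordinates in the mirror image of `L`. -/
def Ind {A X : Type} (φ : Equiv.Perm A) (L : Set A) (f : (A → X) → ℝ) : Prop :=
  ∀ x x' : A → X, (∀ a, φ a ∉ L → x a = x' a) → f x = f x'

section

variable {A X : Type} [Fintype A] [Fintype X]

theorem sum_mix (S : Set A) (f : (A → X) → ℝ) :
    ∑ x : A → X, ∑ t : A → X, f (mix S x t) = (Fintype.card (A → X) : ℝ) * ∑ x : A → X, f x := by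
  let e : (A → X) × (A → X) ≃ (A → X) × (A → X) :=
    { toFun := fun p => (mix S p.1 p.2, mix S p.2 p.1)
      invFun := fun p => (mix S p.1 p.2, mix S p.2 p.1)
      left_inv := by
        rintro ⟨x, t⟩
        apply Prod.ext <;> (funext a; simp only [mix]; split_ifs <;> rfl)
      right_inv := by
        rintro ⟨x, t⟩
        apply Prod.ext <;> (funext a; simp only [mix]; split_ifs <;> rfl) }
  have h1 : ∑ x : A → X, ∑ t : A → X, f (mix S x t) =
      ∑ p : (A → X) × (A → X), f (e p).1 := by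
    rw [Fintype.sum_prod_type]
    rfl
  have h2 : ∑ p : (A → X) × (A → X), f (e p).1 = ∑ p : (A → X) × (A → X), f p.1 :=
    e.sum_comp (fun p => f p.1)
  rw [h1, h2, Fintype.sum_prod_type, Finset.mul_sum]
  refine Finset.sum_congr rfl (fun x _ => ?_)
  show ∑ _y : A → X, f x = _
  rw [Finset.sum_const, Finset.card_univ, nsmul_eq_mul]

theorem sum_split (φ : Equiv.Perm A) (L : Set A) (hL : Half φ L) (f g : (A → X) → ℝ)
    (hf : Ind φ L f) (hg : Ind φ L g) :
    (Fintype.card (A → X) : ℝ) * ((Fintype.card (A → X) : ℝ) * ∑ x : A → X, f x * g (x ∘ φ)) =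
      ∑ x : A → X, (∑ s : A → X, f (mix L x s)) * (∑ s : A → X, g (mix L x s)) := by
  have h1 := sum_mix L (fun x => f x * g (x ∘ φ))
  have h2 := sum_mix (φ ⁻¹' L) (fun x => ∑ s : A → X, (f (mix L x s) * g (mix L x s ∘ φ)))
  rw [← h1, ← h2]
  refine Finset.sum_congr rfl (fun x _ => ?_)
  have h3 : ∀ t s : A → X, f (mix L (mix (φ ⁻¹' L) x t) s) *
      g (mix L (mix (φ ⁻¹' L) x t) s ∘ φ) = f (mix L x s) * g (mix L x (t ∘ φ)) := by
    intro t s
    congr 1
    · apply hf
      intro a ha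
      simp only [mix, Set.mem_preimage]
      split_ifs <;> rfl
    · apply hg
      intro a ha
      simp only [mix, Set.mem_preimage, Function.comp_apply]
      rw [if_neg ha, hL.inv a]
      by_cases haL : a ∈ L
      · rw [if_pos haL, if_pos haL]
      · rw [if_neg haL, if_neg haL, hL.fix a haL ha]
  calc ∑ t : A → X, ∑ s : A → X, f (mix L (mix (φ ⁻¹' L) x t) s) *
          g (mix L (mix (φ ⁻¹' L) x t) s ∘ φ)
      = ∑ t : A → X, ∑ s : A → X, f (mix L x s) * g (mix L x (t ∘ φ)) :=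
        Finset.sum_congr rfl (fun t _ => Finset.sum_congr rfl (fun s _ => h3 t s))
    _ = ∑ t : A → X, (∑ s : A → X, f (mix L x s)) * g (mix L x (t ∘ φ)) :=
        Finset.sum_congr rfl (fun t _ => by rw [Finset.sum_mul])
    _ = (∑ s : A → X, f (mix L x s)) * ∑ t : A → X, g (mix L x (t ∘ φ)) := by
        rw [Finset.mul_sum]
    _ = _ := by
        congr 1
        exact (Equiv.arrowCongr φ (Equiv.refl X)).symm.sum_comp (fun t => g (mix L x t))

/-- Reflected Cauchy-Schwarz inequality. -/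
theorem rp [Nonempty X] {Z : Type} [Fintype Z] (φ : Equiv.Perm A) (L : Set A) (hL : Half φ L)
    (f g : Z → (A → X) → ℝ) (hf : ∀ z, Ind φ L (f z)) (hg : ∀ z, Ind φ L (g z)) :
    (∑ z, ∑ x : A → X, f z x * g z (x ∘ φ)) ^ 2 ≤
      (∑ z, ∑ x : A → X, f z x * f z (x ∘ φ)) * (∑ z, ∑ x : A → X, g z x * g z (x ∘ φ)) := by
  set K : ℝ := (Fintype.card (A → X) : ℝ) with hK
  have hK0 : 0 < K := by
    have : 0 < Fintype.card (A → X) := Fintype.card_pos
    rw [hK]
    exact_mod_cast this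
  have key : ∀ u v : Z → (A → X) → ℝ, (∀ z, Ind φ L (u z)) → (∀ z, Ind φ L (v z)) →
      K * (K * ∑ z, ∑ x : A → X, u z x * v z (x ∘ φ)) =
      ∑ p : Z × (A → X), (∑ s : A → X, u p.1 (mix L p.2 s)) * (∑ s : A → X, v p.1 (mix L p.2 s)) := by
    intro u v hu hv
    rw [Finset.mul_sum, Finset.mul_sum, Fintype.sum_prod_type]
    exact Finset.sum_congr rfl (fun z _ => sum_split φ L hL (u z) (v z) (hu z) (hv z))
  have h1 := key f g hf hg
  have h2 := key f f hf hf
  have h3 := key g g hg hg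
  have h4 := Finset.sum_mul_sq_le_sq_mul_sq (Finset.univ : Finset (Z × (A → X)))
    (fun p => ∑ s : A → X, f p.1 (mix L p.2 s)) (fun p => ∑ s : A → X, g p.1 (mix L p.2 s))
  rw [← h1] at h4
  simp only [sq] at h4 ⊢
  rw [← h2, ← h3] at h4
  have hK4 : 0 < K * K * (K * K) := by positivity
  refine le_of_mul_le_mul_left ?_ hK4
  calc K * K * (K * K) * ((∑ z, ∑ x : A → X, f z x * g z (x ∘ φ)) *
        (∑ z, ∑ x : A → X, f z x * g z (x ∘ φ)))
      = K * (K * ∑ z, ∑ x : A → X, f z x * g z (x ∘ φ)) *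
        (K * (K * ∑ z, ∑ x : A → X, f z x * g z (x ∘ φ))) := by ring
    _ ≤ _ := h4
    _ = _ := by ring

/-- Sums of products of a function and its reflection. -/
def PD (φ : Equiv.Perm A) (L : Set A) (w : (A → X) → ℝ) : Prop :=
  ∃ (Z : Type) (_ : Fintype Z) (r : Z → (A → X) → ℝ), (∀ z, Ind φ L (r z)) ∧
    ∀ x, w x = ∑ z, r z x * r z (x ∘ φ)

theorem Ind.mul {φ : Equiv.Perm A} {L : Set A} {f g : (A → X) → ℝ} (hf : Ind φ L f)
    (hg : Ind φ L g) : Ind φ L (fun x => f x * g x) := by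
  intro x x' h
  simp only
  rw [hf x x' h, hg x x' h]

theorem Ind.prod {φ : Equiv.Perm A} {L : Set A} {ι : Type} (s : Finset ι)
    (f : ι → (A → X) → ℝ) (hf : ∀ i ∈ s, Ind φ L (f i)) : Ind φ L (fun x => ∏ i ∈ s, f i x) := by
  intro x x' h
  exact Finset.prod_congr rfl (fun i hi => hf i hi x x' h)

theorem PD.mul {φ : Equiv.Perm A} {L : Set A} {w w' : (A → X) → ℝ} (h : PD φ L w)
    (h' : PD φ L w') : PD φ L (fun x => w x * w' x) := by
  obtain ⟨Z, iZ, r, hr, hw⟩ := h
  obtain ⟨Z', iZ', r', hr', hw'⟩ := h'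
  refine ⟨Z × Z', inferInstance, fun z x => r z.1 x * r' z.2 x,
    fun z => (hr z.1).mul (hr' z.2), fun x => ?_⟩
  show w x * w' x = ∑ z : Z × Z', (r z.1 x * r' z.2 x) * (r z.1 (x ∘ φ) * r' z.2 (x ∘ φ))
  rw [hw x, hw' x, Finset.sum_mul_sum, Fintype.sum_prod_type]
  refine Finset.sum_congr rfl (fun z _ => Finset.sum_congr rfl (fun z' _ => ?_))
  ring

theorem PD.one (φ : Equiv.Perm A) (L : Set A) : PD φ L (fun _ : A → X => (1 : ℝ)) :=
  ⟨Unit, inferInstance, fun _ _ => 1, fun _ _ _ _ => rfl, fun x => by simp⟩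

theorem PD.prod {φ : Equiv.Perm A} {L : Set A} {ι : Type} (s : Finset ι)
    (w : ι → (A → X) → ℝ) (h : ∀ i ∈ s, PD φ L (w i)) : PD φ L (fun x => ∏ i ∈ s, w i x) := by
  induction s using Finset.induction_on with
  | empty => simpa using PD.one φ L
  | insert i s hi ih =>
    have h1 : PD φ L (fun x => w i x * ∏ j ∈ s, w j x) :=
      (h i (mem_insert_self i s)).mul (ih (fun j hj => h j (mem_insert_of_mem hj)))
    have h2 : (fun x => ∏ j ∈ insert i s, w j x) = fun x => w i x * ∏ j ∈ s, w j x := by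
      funext x; exact Finset.prod_insert hi
    rw [h2]; exact h1

/-- A product of a function and its reflection. -/
theorem PD.of_ind {φ : Equiv.Perm A} {L : Set A} {f : (A → X) → ℝ} (hf : Ind φ L f) :
    PD φ L (fun x => f x * f (x ∘ φ)) :=
  ⟨Unit, inferInstance, fun _ => f, fun _ => hf, fun x => by simp⟩

/-- Nonnegative functions of the fixed coordinates. -/
theorem PD.of_center {φ : Equiv.Perm A} {L : Set A} (f : (A → X) → ℝ)
    (h0 : ∀ x, 0 ≤ f x) (hf : ∀ x x' : A → X, (∀ a, φ a = a → x a = x' a) → f x = f x')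
    (hL : Half φ L) : PD φ L f := by
  refine ⟨Unit, inferInstance, fun _ x => Real.sqrt (f x), fun _ x x' h => ?_, fun x => ?_⟩
  · simp only
    rw [hf x x' (fun a ha => h a (fun hL' => by
      have h1 := hL.disj _ hL'
      rw [ha, ha] at h1
      rw [ha] at hL'
      exact h1 hL'))]
  · have h1 : f (x ∘ φ) = f x := hf _ _ (fun a ha => by
      simp [Function.comp_apply, ha])
    simp only [Finset.univ_unique, Finset.sum_singleton]
    rw [h1, Real.mul_self_sqrt (h0 x)]

/-- The folding inequality. -/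
theorem fold [Nonempty X] {φ : Equiv.Perm A} {L : Set A} (hL : Half φ L) {w u v : (A → X) → ℝ}
    (hw : PD φ L w) (hu : Ind φ L u) (hv : Ind φ L v) :
    (∑ x : A → X, w x * (u x * v (x ∘ φ))) ^ 2 ≤
      (∑ x : A → X, w x * (u x * u (x ∘ φ))) * (∑ x : A → X, w x * (v x * v (x ∘ φ))) := by
  obtain ⟨Z, iZ, r, hr, hw⟩ := hw
  have key : ∀ u v : (A → X) → ℝ, ∑ x : A → X, w x * (u x * v (x ∘ φ)) =
      ∑ z, ∑ x : A → X, (r z x * u x) * (r z (x ∘ φ) * v (x ∘ φ)) := by
    intro u v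
    rw [Finset.sum_comm]
    refine Finset.sum_congr rfl (fun x _ => ?_)
    rw [hw x, Finset.sum_mul]
    refine Finset.sum_congr rfl (fun z _ => ?_)
    ring
  rw [key u v, key u u, key v v]
  exact rp φ L hL (fun z x => r z x * u x) (fun z x => r z x * v x)
    (fun z => (hr z).mul hu) (fun z => (hr z).mul hv)

theorem PD.nonneg_sum [Nonempty X] {φ : Equiv.Perm A} {L : Set A} (hL : Half φ L)
    {w u : (A → X) → ℝ} (hw : PD φ L w) (hu : Ind φ L u) :
    0 ≤ ∑ x : A → X, w x * (u x * u (x ∘ φ)) := by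
  obtain ⟨Z, iZ, r, hr, hw⟩ := hw
  set K : ℝ := (Fintype.card (A → X) : ℝ) with hK
  have hK0 : 0 < K := by
    have : 0 < Fintype.card (A → X) := Fintype.card_pos
    rw [hK]
    exact_mod_cast this
  have h1 : ∑ x : A → X, w x * (u x * u (x ∘ φ)) =
      ∑ z, ∑ x : A → X, (r z x * u x) * (r z (x ∘ φ) * u (x ∘ φ)) := by
    rw [Finset.sum_comm]
    refine Finset.sum_congr rfl (fun x _ => ?_)
    rw [hw x, Finset.sum_mul]
    refine Finset.sum_congr rfl (fun z _ => ?_)
    ring
  rw [h1]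
  refine Finset.sum_nonneg (fun z _ => ?_)
  have h2 := sum_split φ L hL (fun x => r z x * u x) (fun x => r z x * u x)
    ((hr z).mul hu) ((hr z).mul hu)
  have h3 : 0 ≤ K * (K * ∑ x : A → X, (r z x * u x) * (r z (x ∘ φ) * u (x ∘ φ))) := by
    rw [h2]
    exact Finset.sum_nonneg (fun x _ => mul_self_nonneg _)
  exact nonneg_of_mul_nonneg_right (nonneg_of_mul_nonneg_right h3 hK0) hK0

end

end Pool.Agent.Lib.MP_426a66_co.H54
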