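import Pool.Agent.Lib.MP_426a66_co.H54.Core1

/-!
# Common degrees and the addition of one vertex
-/

set_option autoImplicit false
set_option linter.unusedSectionVars false

namespace Pool.Agent.Lib.MP_426a66_co.H54

open Finset Classical

theorem prod_three {β : Type} (s : Finset β) (ψ : β → β) (M : Set β)
    (h1 : ∀ b ∈ s, ψ b ∈ s) (h2 : ∀ b ∈ s, ψ (ψ b) = b) (h3 : ∀ b ∈ s, b ∈ M → ψ b ∉ M)
    (g : β → ℝ) :
    ∏ b ∈ s, g b = (∏ b ∈ s.filter (fun b => b ∈ M), g b) *
      (∏ b ∈ s.filter (fun b => b ∈ M), g (ψ b)) *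
      ∏ b ∈ s.filter (fun b => b ∉ M ∧ ψ b ∉ M), g b := by
  have e1 : ∏ b ∈ s.filter (fun b => b ∈ M), g (ψ b) =
      ∏ b ∈ s.filter (fun b => b ∉ M ∧ ψ b ∈ M), g b := by
    refine Finset.prod_nbij' (fun b => ψ b) (fun b => ψ b) ?_ ?_ ?_ ?_ ?_
    · intro b hb
      rw [mem_filter] at hb ⊢
      exact ⟨h1 b hb.1, h3 b hb.1 hb.2, by rw [h2 b hb.1]; exact hb.2⟩
    · intro b hb
      rw [mem_filter] at hb ⊢
      exact ⟨h1 b hb.1, hb.2.2⟩
    · intro b hb
      exact h2 b (mem_filter.mp hb).1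
    · intro b hb
      exact h2 b (mem_filter.mp hb).1
    · intro b _
      rfl
  rw [e1, mul_assoc, ← Finset.prod_filter_mul_prod_filter_not s (fun b => b ∈ M) g]
  congr 1
  rw [← Finset.prod_filter_mul_prod_filter_not (s.filter (fun b => b ∉ M)) (fun b => ψ b ∈ M) g,
    Finset.filter_filter, Finset.filter_filter]

section

variable {A X Y : Type} [Fintype A] [Fintype X] [Fintype Y]

/-- the normalised common degree -/
noncomputable def cd (V : X → Y → ℝ) (S : Finset A) (x : A → X) : ℝ :=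
  (Fintype.card Y : ℝ)⁻¹ * ∑ y, ∏ a ∈ S, V (x a) y

theorem cd_nonneg {V : X → Y → ℝ} (hV : ∀ x y, 0 ≤ V x y) (S : Finset A) (x : A → X) :
    0 ≤ cd V S x :=
  mul_nonneg (by positivity) (Finset.sum_nonneg (fun y _ => Finset.prod_nonneg (fun a _ => hV _ _)))

theorem cd_empty [Nonempty Y] (V : X → Y → ℝ) (x : A → X) : cd V ∅ x = 1 := by
  unfold cd
  simp

theorem cd_ind (V : X → Y → ℝ) {φ : Equiv.Perm A} {L : Set A} (S : Finset A)
    (h : ∀ a ∈ S, φ a ∉ L) : Ind φ L (cd V S) := by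
  intro x x' hx
  unfold cd
  congr 1
  refine Finset.sum_congr rfl (fun y _ => Finset.prod_congr rfl (fun a ha => ?_))
  rw [hx a (h a ha)]

theorem cd_comp (V : X → Y → ℝ) (φ : Equiv.Perm A) (S : Finset A) (x : A → X) :
    cd V S (x ∘ φ) = cd V (S.map φ.toEmbedding) x := by
  unfold cd
  congr 1
  refine Finset.sum_congr rfl (fun y _ => ?_)
  rw [Finset.prod_map]
  rfl

theorem PD.sum {φ : Equiv.Perm A} {L : Set A} {ι : Type} [Fintype ι]
    (w : ι → (A → X) → ℝ) (h : ∀ i, PD φ L (w i)) : PD φ L (fun x => ∑ i, w i x) := by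
  choose Z iZ r hr hw using h
  letI := iZ
  refine ⟨Σ i, Z i, inferInstance, fun z => r z.1 z.2, fun z => hr z.1 z.2, fun x => ?_⟩
  rw [Fintype.sum_sigma]
  exact Finset.sum_congr rfl (fun i _ => hw i x)

theorem cd_pd {V : X → Y → ℝ} (hV : ∀ x y, 0 ≤ V x y) {φ : Equiv.Perm A} {L : Set A}
    (hL : Half φ L) (S : Finset A) (hS : S.map φ.toEmbedding = S) : PD φ L (cd V S) := by
  have hmem : ∀ a ∈ S, φ a ∈ S := by
    intro a ha
    rw [← hS]
    exact Finset.mem_map_of_mem _ ha
  have h1 : cd V S = fun x => ∑ y : Y,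
      (((∏ a ∈ S.filter (fun a => a ∈ L), V (x a) y) *
        (∏ a ∈ S.filter (fun a => a ∈ L), V ((x ∘ φ) a) y)) *
      ((Fintype.card Y : ℝ)⁻¹ * ∏ a ∈ S.filter (fun a => a ∉ L ∧ φ a ∉ L), V (x a) y)) := by
    funext x
    unfold cd
    rw [Finset.mul_sum]
    refine Finset.sum_congr rfl (fun y _ => ?_)
    rw [prod_three S φ L hmem (fun a _ => hL.inv a) (fun a _ ha => hL.disj a ha)
      (fun a => V (x a) y)]
    simp only [Function.comp_apply]
    ring
  rw [h1]
  refine PD.sum _ (fun y => PD.mul (PD.of_ind ?_) (PD.of_center _ ?_ ?_ hL))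
  · intro x x' hx
    refine Finset.prod_congr rfl (fun a ha => ?_)
    rw [hx a (hL.disj a (mem_filter.mp ha).2)]
  · intro x
    exact mul_nonneg (by positivity) (Finset.prod_nonneg (fun a _ => hV _ _))
  · intro x x' hx
    congr 1
    refine Finset.prod_congr rfl (fun a ha => ?_)
    have := (mem_filter.mp ha).2
    rw [hx a (hL.fix a this.1 this.2)]

/-- Products of common degrees over a family with an involution. -/
theorem pd_family {V : X → Y → ℝ} (hV : ∀ x y, 0 ≤ V x y) {φ : Equiv.Perm A} {L : Set A}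
    (hL : Half φ L) {β : Type} (s : Finset β) (N : β → Finset A) (ψ : β → β) (M : Set β)
    (h1 : ∀ b ∈ s, ψ b ∈ s) (h2 : ∀ b ∈ s, ψ (ψ b) = b) (h3 : ∀ b ∈ s, b ∈ M → ψ b ∉ M)
    (hN : ∀ b ∈ s, N (ψ b) = (N b).map φ.toEmbedding)
    (hfix : ∀ b ∈ s, b ∉ M → ψ b ∉ M → ψ b = b)
    (hcut : ∀ b ∈ s, b ∈ M → ∀ a ∈ N b, φ a ∉ L) :
    PD φ L (fun x => ∏ b ∈ s, cd V (N b) x) := by
  have h : (fun x : A → X => ∏ b ∈ s, cd V (N b) x) = fun x =>
      ((∏ b ∈ s.filter (fun b => b ∈ M), cd V (N b) x) *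
        (∏ b ∈ s.filter (fun b => b ∈ M), cd V (N b) (x ∘ φ))) *
      ∏ b ∈ s.filter (fun b => b ∉ M ∧ ψ b ∉ M), cd V (N b) x := by
    funext x
    rw [prod_three s ψ M h1 h2 h3 (fun b => cd V (N b) x)]
    congr 2
    refine Finset.prod_congr rfl (fun b hb => ?_)
    rw [cd_comp, hN b (mem_filter.mp hb).1]
  rw [h]
  refine PD.mul (PD.of_ind ?_) (PD.prod _ _ ?_)
  · exact Ind.prod _ _ (fun b hb => cd_ind V _ (hcut b (mem_filter.mp hb).1 (mem_filter.mp hb).2))
  · intro b hb
    rw [mem_filter] at hb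
    refine cd_pd hV hL _ ?_
    rw [← hN b hb.1, hfix b hb.1 hb.2.1 hb.2.2]

/-! ### Colourings -/

theorem color_avg {A Y : Type} [Fintype A] [Fintype Y] (T : Finset A) (hT : T.Nonempty)
    (Ψ : (A → Y) → ℝ) (hcong : ∀ c c', (∀ i ∈ T, c i = c' i) → Ψ c = Ψ c')
    (hfold : ∀ c, ∀ i ∈ T, ∀ k ∈ T, i ≠ k →
      Ψ c ≤ (Ψ (Function.update c k (c i)) + Ψ (Function.update c i (c k))) / 2) :
    ∀ c, Ψ c ≤ (T.card : ℝ)⁻¹ * ∑ i ∈ T, Ψ (fun _ => c i) := by
  intro c₀
  have hTc : (0 : ℝ) < T.card := by exact_mod_cast hT.card_pos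
  set a : (A → Y) → ℝ := fun c => Ψ c - (T.card : ℝ)⁻¹ * ∑ i ∈ T, Ψ (fun _ => c i) with ha
  have hstep : ∀ c, ∀ i ∈ T, ∀ k ∈ T, i ≠ k →
      a c ≤ (a (Function.update c k (c i)) + a (Function.update c i (c k))) / 2 := by
    intro c i hi k hk hik
    have h1 := hfold c i hi k hk hik
    have h2 : ∀ (c : A → Y) (k : A), k ∈ T → ∀ y : Y, ∑ j ∈ T, Ψ (fun _ => Function.update c k y j) =
        ∑ j ∈ T, Ψ (fun _ => c j) - Ψ (fun _ => c k) + Ψ (fun _ => y) := by
      intro c k hk y
      rw [← Finset.add_sum_erase T _ hk, ← Finset.add_sum_erase T (fun j => Ψ (fun _ => c j)) hk,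
        Function.update_self]
      have : ∑ x ∈ T.erase k, Ψ (fun _ => Function.update c k y x) =
          ∑ x ∈ T.erase k, Ψ (fun _ => c x) := by
        refine Finset.sum_congr rfl (fun j hj => ?_)
        rw [Function.update_of_ne (ne_of_mem_erase hj)]
      rw [this]
      ring
    simp only [ha]
    rw [h2 c k hk (c i), h2 c i hi (c k)]
    have h3 : (T.card : ℝ)⁻¹ * (∑ j ∈ T, Ψ (fun _ => c j) - Ψ (fun _ => c k) + Ψ (fun _ => c i)) +
        (T.card : ℝ)⁻¹ * (∑ j ∈ T, Ψ (fun _ => c j) - Ψ (fun _ => c i) + Ψ (fun _ => c k)) =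
        2 * ((T.card : ℝ)⁻¹ * ∑ j ∈ T, Ψ (fun _ => c j)) := by ring
    linarith
  by_contra hcon
  have hpos : 0 < a c₀ := by
    simp only [ha]
    linarith [not_le.mp hcon]
  obtain ⟨cm, -, hcm⟩ := Finset.exists_max_image (Finset.univ : Finset (A → Y)) a
    ⟨c₀, mem_univ _⟩
  have hcm0 : 0 < a cm := lt_of_lt_of_le hpos (hcm c₀ (mem_univ _))
  -- among the maximal colourings maximise a colour class
  set P : Finset ((A → Y) × A) := Finset.univ.filter (fun p => a p.1 = a cm ∧ p.2 ∈ T) with hP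
  have hPne : P.Nonempty := by
    obtain ⟨i, hi⟩ := hT
    exact ⟨(cm, i), by rw [hP, mem_filter]; exact ⟨mem_univ _, rfl, hi⟩⟩
  obtain ⟨⟨c, i⟩, hci, hmax⟩ := Finset.exists_max_image P
    (fun p => (T.filter (fun j => p.1 j = p.1 p.2)).card) hPne
  rw [hP, mem_filter] at hci
  obtain ⟨-, hac, hi⟩ := hci
  simp only at hac hi
  by_cases hall : ∀ k ∈ T, c k = c i
  · have h1 : a c = 0 := by
      simp only [ha]
      have h2 : ∑ j ∈ T, Ψ (fun _ => c j) = T.card * Ψ c := by
        rw [← nsmul_eq_mul, ← Finset.sum_const]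
        refine Finset.sum_congr rfl (fun j hj => ?_)
        refine hcong _ _ (fun l hl => ?_)
        rw [hall j hj, hall l hl]
      rw [h2, ← mul_assoc, inv_mul_cancel₀ hTc.ne', one_mul, sub_self]
    linarith
  · push Not at hall
    obtain ⟨k, hk, hki⟩ := hall
    have hik : i ≠ k := fun h => hki (by rw [h])
    have h1 := hstep c i hi k hk hik
    have h2 := hcm (Function.update c k (c i)) (mem_univ _)
    have h3 := hcm (Function.update c i (c k)) (mem_univ _)
    have h4 : a (Function.update c k (c i)) = a cm := by linarith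
    have h5 := hmax (Function.update c k (c i), i) (by
      rw [hP, mem_filter]; exact ⟨mem_univ _, h4, hi⟩)
    simp only at h5
    rw [Function.update_of_ne hik] at h5
    have h6 : T.filter (fun j => c j = c i) ⊂
        T.filter (fun j => Function.update c k (c i) j = c i) := by
      rw [Finset.ssubset_iff_of_subset]
      · refine ⟨k, ?_, ?_⟩
        · rw [mem_filter]; exact ⟨hk, by rw [Function.update_self]⟩
        · rw [mem_filter]; exact fun h => hki h.2
      · intro j hj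
        rw [mem_filter] at hj ⊢
        refine ⟨hj.1, ?_⟩
        by_cases hjk : j = k
        · rw [hjk, Function.update_self]
        · rw [Function.update_of_ne hjk]; exact hj.2
    exact absurd (Finset.card_lt_card h6) (not_lt.mpr h5)

theorem avg_prod {A Y : Type} [Fintype A] [Fintype Y] (g : A → Y → ℝ) (κ : ℝ) :
    κ ^ Fintype.card A * ∑ c : A → Y, ∏ j, g j (c j) = ∏ j, (κ * ∑ y, g j y) := by
  rw [Finset.prod_mul_distrib, Finset.prod_const, Finset.card_univ, Finset.prod_univ_sum,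
    Fintype.piFinset_univ]

theorem avg_coord {A Y : Type} [Fintype A] [Fintype Y] [Nonempty Y] (G : Y → ℝ) (i : A) :
    ((Fintype.card Y : ℝ)⁻¹) ^ Fintype.card A * ∑ c : A → Y, G (c i) =
      (Fintype.card Y : ℝ)⁻¹ * ∑ y, G y := by
  have hY : (Fintype.card Y : ℝ) ≠ 0 := by
    have : 0 < Fintype.card Y := Fintype.card_pos
    positivity
  have h1 := avg_prod (fun j y => if j = i then G y else 1) ((Fintype.card Y : ℝ)⁻¹)
  have h2 : ∀ c : A → Y, ∏ j, (if j = i then G (c j) else 1) = G (c i) := by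
    intro c
    rw [Finset.prod_ite_eq' Finset.univ i (fun j => G (c j))]
    simp
  simp only [h2] at h1
  rw [h1, Finset.prod_eq_single i]
  · simp
  · intro j _ hj
    simp [hj, hY]
  · intro h
    exact absurd (mem_univ i) h

/-- Adding a common neighbour of `T`. -/
theorem rl [Nonempty X] [Nonempty Y] {V : X → Y → ℝ} (hV : ∀ x y, 0 ≤ V x y)
    (hd : ∀ x, 1 ≤ (Fintype.card Y : ℝ)⁻¹ * ∑ y, V x y) (w : (A → X) → ℝ) (hw : ∀ x, 0 ≤ w x)
    (T : Finset A) (hfold : ∀ i ∈ T, ∀ k ∈ T, i ≠ k → ∃ (φ : Equiv.Perm A) (L : Set A),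
      Half φ L ∧ PD φ L w ∧ φ i = k ∧ i ∈ L ∧ ∀ j ∈ T, j ≠ i → j ≠ k → φ j = j) :
    ∑ x, w x ≤ ∑ x, w x * cd V T x := by
  rcases T.eq_empty_or_nonempty with hT | hT
  · subst hT
    refine le_of_eq (Finset.sum_congr rfl (fun x _ => ?_))
    rw [cd_empty, mul_one]
  have hY0 : (0 : ℝ) < Fintype.card Y := by exact_mod_cast Fintype.card_pos
  set κ : ℝ := (Fintype.card Y : ℝ)⁻¹ with hκ
  set Ψ : (A → Y) → ℝ := fun c => ∑ x : A → X, w x * ∏ i ∈ T, V (x i) (c i) with hΨ
  have hΨ0 : ∀ c, 0 ≤ Ψ c := fun c => Finset.sum_nonneg (fun x _ =>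
    mul_nonneg (hw x) (Finset.prod_nonneg (fun i _ => hV _ _)))
  have hstep : ∀ c, ∀ i ∈ T, ∀ k ∈ T, i ≠ k →
      Ψ c ≤ (Ψ (Function.update c k (c i)) + Ψ (Function.update c i (c k))) / 2 := by
    intro c i hi k hk hik
    obtain ⟨φ, L, hL, hwp, hφ, hiL, hfix⟩ := hfold i hi k hk hik
    have hkT : k ∈ T.erase i := mem_erase.mpr ⟨hik.symm, hk⟩
    set w' : (A → X) → ℝ := fun x => w x * ∏ j ∈ (T.erase i).erase k, V (x j) (c j) with hw'
    have hw'p : PD φ L w' := by
      refine PD.mul hwp (PD.of_center _ ?_ ?_ hL)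
      · intro x
        exact Finset.prod_nonneg (fun j _ => hV _ _)
      · intro x x' hx
        refine Finset.prod_congr rfl (fun j hj => ?_)
        rw [mem_erase, mem_erase] at hj
        rw [hx j (hfix j hj.2.2 hj.2.1 hj.1)]
    have hind : ∀ y : Y, Ind φ L (fun x : A → X => V (x i) y) := by
      intro y x x' hx
      simp only
      rw [hx i (hL.disj i hiL)]
    have key : ∀ y y' : Y, ∑ x : A → X, w' x * (V (x i) y * V ((x ∘ φ) i) y') =
        Ψ (Function.update (Function.update c i y) k y') := by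
      intro y y'
      simp only [hΨ]
      refine Finset.sum_congr rfl (fun x _ => ?_)
      rw [← Finset.mul_prod_erase T _ hi, ← Finset.mul_prod_erase (T.erase i) _ hkT]
      have h1 : ∏ j ∈ (T.erase i).erase k,
          V (x j) (Function.update (Function.update c i y) k y' j) =
          ∏ j ∈ (T.erase i).erase k, V (x j) (c j) := by
        refine Finset.prod_congr rfl (fun j hj => ?_)
        rw [mem_erase, mem_erase] at hj
        rw [Function.update_of_ne hj.1, Function.update_of_ne hj.2.1]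
      rw [h1, Function.update_self, Function.update_of_ne hik, Function.update_self]
      simp only [hw', Function.comp_apply, hφ]
      ring
    have hf := fold hL hw'p (hind (c i)) (hind (c k))
    rw [key, key, key] at hf
    have e1 : Function.update (Function.update c i (c i)) k (c k) = c := by
      rw [Function.update_eq_self, Function.update_eq_self]
    have e2 : Function.update (Function.update c i (c i)) k (c i) =
        Function.update c k (c i) := by
      rw [Function.update_eq_self]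
    have e3 : Function.update (Function.update c i (c k)) k (c k) =
        Function.update c i (c k) := by
      funext j
      by_cases hj : j = k
      · subst hj
        rw [Function.update_self, Function.update_of_ne hik.symm]
      · rw [Function.update_of_ne hj]
    rw [e1, e2, e3] at hf
    have h0 := hΨ0 (Function.update c k (c i))
    have h0' := hΨ0 (Function.update c i (c k))
    by_contra hlt
    push Not at hlt
    nlinarith [sq_nonneg (Ψ (Function.update c k (c i)) - Ψ (Function.update c i (c k)))]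
  have hcol := color_avg T hT Ψ (by
    intro c c' h
    simp only [hΨ]
    refine Finset.sum_congr rfl (fun x _ => ?_)
    congr 1
    exact Finset.prod_congr rfl (fun i hi => by rw [h i hi])) hstep
  have hTc : (0 : ℝ) < T.card := by exact_mod_cast hT.card_pos
  -- average over all colourings
  have h1 : κ ^ Fintype.card A * ∑ c : A → Y, Ψ c ≤ κ * ∑ y, Ψ (fun _ => y) := by
    calc κ ^ Fintype.card A * ∑ c : A → Y, Ψ c
        ≤ κ ^ Fintype.card A * ∑ c : A → Y, (T.card : ℝ)⁻¹ * ∑ i ∈ T, Ψ (fun _ => c i) := by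
          apply mul_le_mul_of_nonneg_left _ (by positivity)
          exact Finset.sum_le_sum (fun c _ => hcol c)
      _ = (T.card : ℝ)⁻¹ * ∑ i ∈ T, κ ^ Fintype.card A * ∑ c : A → Y, Ψ (fun _ => c i) := by
          rw [← Finset.mul_sum, Finset.sum_comm, ← Finset.mul_sum]
          ring
      _ = (T.card : ℝ)⁻¹ * ∑ i ∈ T, (κ * ∑ y, Ψ (fun _ => y)) := by
          congr 1
          refine Finset.sum_congr rfl (fun i _ => ?_)
          exact avg_coord (fun y => Ψ (fun _ => y)) i
      _ = κ * ∑ y, Ψ (fun _ => y) := by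
          rw [Finset.sum_const, nsmul_eq_mul, ← mul_assoc, inv_mul_cancel₀ hTc.ne', one_mul]
  have h2 : κ ^ Fintype.card A * ∑ c : A → Y, Ψ c =
      ∑ x : A → X, w x * ∏ i ∈ T, (κ * ∑ y, V (x i) y) := by
    simp only [hΨ]
    rw [Finset.sum_comm, Finset.mul_sum]
    refine Finset.sum_congr rfl (fun x _ => ?_)
    rw [← Finset.mul_sum]
    have h3 := avg_prod (fun j y => if j ∈ T then V (x j) y else 1) κ
    have h4 : ∀ c : A → Y, ∏ j, (if j ∈ T then V (x j) (c j) else 1) =
        ∏ j ∈ T, V (x j) (c j) := by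
      intro c
      rw [Finset.prod_ite_mem, Finset.univ_inter]
    simp only [h4] at h3
    have h5 : ∏ j, (κ * ∑ y, if j ∈ T then V (x j) y else 1) =
        ∏ j ∈ T, (κ * ∑ y, V (x j) y) := by
      rw [← Finset.prod_subset (Finset.subset_univ T)]
      · exact Finset.prod_congr rfl (fun j hj => by simp [hj])
      · intro j _ hj
        simp [hj, hκ, hY0.ne']
    rw [h5] at h3
    rw [← h3]
    ring
  have h6 : κ * ∑ y, Ψ (fun _ => y) = ∑ x : A → X, w x * cd V T x := by
    simp only [hΨ, cd]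
    rw [Finset.sum_comm, Finset.mul_sum]
    refine Finset.sum_congr rfl (fun x _ => ?_)
    rw [← Finset.mul_sum]
    ring
  rw [← h6]
  refine le_trans ?_ h1
  rw [h2]
  refine Finset.sum_le_sum (fun x _ => ?_)
  have h7 : 1 ≤ ∏ i ∈ T, (κ * ∑ y, V (x i) y) := by
    calc (1 : ℝ) = ∏ i ∈ T, (1 : ℝ) := by simp
      _ ≤ _ := Finset.prod_le_prod (fun _ _ => by norm_num) (fun i _ => hd (x i))
  calc w x = w x * 1 := (mul_one _).symm
    _ ≤ _ := mul_le_mul_of_nonneg_left h7 (hw x)

end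

end Pool.Agent.Lib.MP_426a66_co.H54
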