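import Pool.Agent.Lib.MP_426a66_co.H54.Core2

/-!
# All subsets of a given size of a reflection symmetric set
-/

set_option autoImplicit false
set_option linter.unusedSectionVars false

namespace Pool.Agent.Lib.MP_426a66_co.H54

open Finset Classical

/-- the image of a set under a transposition -/
noncomputable def sw {P : Type} (i k : P) (S : Finset P) : Finset P :=
  S.map (Equiv.swap i k).toEmbedding

section sw

variable {P : Type}

theorem mem_sw (i k : P) (S : Finset P) (j : P) : j ∈ sw i k S ↔ Equiv.swap i k j ∈ S := by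
  unfold sw
  rw [Finset.mem_map_equiv, Equiv.symm_swap]

theorem sw_sw (i k : P) (S : Finset P) : sw i k (sw i k S) = S := by
  ext j
  rw [mem_sw, mem_sw, Equiv.swap_apply_self]

theorem card_sw (i k : P) (S : Finset P) : (sw i k S).card = S.card := Finset.card_map _

theorem mem_sw_left (i k : P) (S : Finset P) : i ∈ sw i k S ↔ k ∈ S := by
  rw [mem_sw, Equiv.swap_apply_left]

theorem mem_sw_right (i k : P) (S : Finset P) : k ∈ sw i k S ↔ i ∈ S := by
  rw [mem_sw, Equiv.swap_apply_right]

theorem mem_sw_other {i k : P} (S : Finset P) {j : P} (h1 : j ≠ i) (h2 : j ≠ k) :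
    j ∈ sw i k S ↔ j ∈ S := by
  rw [mem_sw, Equiv.swap_apply_of_ne_of_ne h1 h2]

theorem sw_eq_self {i k : P} {S : Finset P} (h : i ∈ S ↔ k ∈ S) : sw i k S = S := by
  ext j
  by_cases h1 : j = i
  · subst h1; rw [mem_sw_left]; exact h.symm
  · by_cases h2 : j = k
    · subst h2; rw [mem_sw_right]; exact h
    · exact mem_sw_other S h1 h2

theorem sw_comm (i k : P) (S : Finset P) : sw i k S = sw k i S := by
  unfold sw; rw [Equiv.swap_comm]

/-- folding a family of sets -/
noncomputable def keep (i k : P) (F : Finset (Finset P)) : Finset (Finset P) :=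
  (F.filter (fun S => i ∈ S ↔ k ∈ S) ∪ F.filter (fun S => i ∈ S ∧ k ∉ S)) ∪
    (F.filter (fun S => i ∈ S ∧ k ∉ S)).image (sw i k)

theorem sw_injective (i k : P) : Function.Injective (sw i k) := by
  intro S T h
  rw [← sw_sw i k S, h, sw_sw]

theorem prod_keep (i k : P) (F : Finset (Finset P)) (g : Finset P → ℝ) :
    ∏ S ∈ keep i k F, g S = (∏ S ∈ F.filter (fun S => i ∈ S ↔ k ∈ S), g S) *
      (∏ S ∈ F.filter (fun S => i ∈ S ∧ k ∉ S), g S) *
      ∏ S ∈ F.filter (fun S => i ∈ S ∧ k ∉ S), g (sw i k S) := by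
  unfold keep
  rw [Finset.prod_union, Finset.prod_union, Finset.prod_image]
  · intro S _ T _ h
    exact sw_injective i k h
  · rw [Finset.disjoint_left]
    intro S h1 h2
    rw [mem_filter] at h1 h2
    tauto
  · rw [Finset.disjoint_left]
    intro S h1 h2
    rw [Finset.mem_image] at h2
    obtain ⟨T, hT, rfl⟩ := h2
    rw [mem_filter] at hT
    rw [mem_union, mem_filter, mem_filter, mem_sw_left, mem_sw_right] at h1
    tauto

theorem card_keep (i k : P) (F : Finset (Finset P)) :
    (keep i k F).card = (F.filter (fun S => i ∈ S ↔ k ∈ S)).card +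
      2 * (F.filter (fun S => i ∈ S ∧ k ∉ S)).card := by
  unfold keep
  rw [Finset.card_union_of_disjoint, Finset.card_union_of_disjoint,
    Finset.card_image_of_injective _ (sw_injective i k)]
  · ring
  · rw [Finset.disjoint_left]
    intro S h1 h2
    rw [mem_filter] at h1 h2
    tauto
  · rw [Finset.disjoint_left]
    intro S h1 h2
    rw [Finset.mem_image] at h2
    obtain ⟨T, hT, rfl⟩ := h2
    rw [mem_filter] at hT
    rw [mem_union, mem_filter, mem_filter, mem_sw_left, mem_sw_right] at h1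
    tauto

theorem card_keep_add (i k : P) (F : Finset (Finset P)) :
    (keep i k F).card + (keep k i F).card = 2 * F.card := by
  rw [card_keep, card_keep]
  have h1 : F.filter (fun S => k ∈ S ↔ i ∈ S) = F.filter (fun S => i ∈ S ↔ k ∈ S) := by
    apply Finset.filter_congr
    intro S _
    exact Iff.comm
  have h2 := Finset.card_filter_add_card_filter_not (s := F) (fun S => i ∈ S ↔ k ∈ S)
  have h3 : (F.filter (fun S => ¬(i ∈ S ↔ k ∈ S))).card =
      (F.filter (fun S => i ∈ S ∧ k ∉ S)).card + (F.filter (fun S => k ∈ S ∧ i ∉ S)).card := by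
    rw [← Finset.card_union_of_disjoint]
    · congr 1
      ext S
      rw [mem_union, mem_filter, mem_filter, mem_filter]
      tauto
    · rw [Finset.disjoint_left]
      intro S h1 h2
      rw [mem_filter] at h1 h2
      tauto
  rw [h1]
  omega

theorem keep_subset [Fintype P] {m : ℕ} (i k : P) {F : Finset (Finset P)}
    (hF : F ⊆ powersetCard m univ) : keep i k F ⊆ powersetCard m univ := by
  intro S hS
  unfold keep at hS
  rw [mem_union, mem_union, mem_filter, mem_filter, Finset.mem_image] at hS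
  rcases hS with (hS | hS) | ⟨T, hT, rfl⟩
  · exact hF hS.1
  · exact hF hS.1
  · have := hF (mem_filter.mp hT).1
    rw [mem_powersetCard] at this ⊢
    exact ⟨subset_univ _, by rw [card_sw]; exact this.2⟩

/-- Percolation: a nonempty class of families closed under folding contains everything. -/
theorem percolate [Fintype P] {m : ℕ} (𝓜 : Finset (Finset P) → Prop)
    (hsub : ∀ F, 𝓜 F → F ⊆ powersetCard m univ)
    (hkeep : ∀ F, 𝓜 F → ∀ i k, i ≠ k → 𝓜 (keep i k F)) (hne : ∃ F, 𝓜 F ∧ F.Nonempty) :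
    𝓜 (powersetCard m univ) := by
  have main : ∀ l : ℕ, m ≤ l → l ≤ Fintype.card P → ∃ F, 𝓜 F ∧ ∃ Q : Finset P, Q.card = l ∧
      powersetCard m Q ⊆ F := by
    intro l hml
    induction l, hml using Nat.le_induction with
    | base =>
      intro _
      obtain ⟨F, hF, T, hT⟩ := hne
      refine ⟨F, hF, T, (mem_powersetCard.mp (hsub F hF hT)).2, ?_⟩
      intro S hS
      rw [mem_powersetCard] at hS
      have : S = T := Finset.eq_of_subset_of_card_le hS.1
        (by rw [hS.2, (mem_powersetCard.mp (hsub F hF hT)).2])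
      rw [this]; exact hT
    | succ l hml ih =>
      intro hl
      obtain ⟨F, hF, Q, hQ, hQF⟩ := ih (by omega)
      obtain ⟨p, hp⟩ : ∃ p, p ∉ Q := by
        by_contra hcon
        push Not at hcon
        have : Q = univ := Finset.eq_univ_iff_forall.mpr hcon
        rw [this, Finset.card_univ] at hQ
        omega
      have inner : ∀ R : Finset P, R ⊆ Q → ∃ F, 𝓜 F ∧
          ∀ S ∈ powersetCard m (insert p Q), (p ∉ S ∨ ¬ R ⊆ S) → S ∈ F := by
        intro R
        induction R using Finset.induction_on with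
        | empty =>
          intro _
          refine ⟨F, hF, fun S hS h => hQF ?_⟩
          rw [mem_powersetCard] at hS ⊢
          rcases h with h | h
          · refine ⟨fun a ha => ?_, hS.2⟩
            rcases mem_insert.mp (hS.1 ha) with rfl | h'
            · exact absurd ha h
            · exact h'
          · exact absurd (Finset.empty_subset S) h
        | insert q R hq ihR =>
          intro hR
          obtain ⟨F', hF', hcov⟩ := ihR (fun a ha => hR (mem_insert_of_mem ha))
          have hqQ : q ∈ Q := hR (mem_insert_self q R)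
          have hqp : q ≠ p := fun h => hp (h ▸ hqQ)
          refine ⟨keep q p F', hkeep F' hF' q p hqp, fun S hS h => ?_⟩
          unfold keep
          rw [mem_union, mem_union, mem_filter, mem_filter, Finset.mem_image]
          by_cases hpS : p ∈ S
          · have hRS : ¬ insert q R ⊆ S := by
              rcases h with h | h
              · exact absurd hpS h
              · exact h
            by_cases hqS : q ∈ S
            · left; left
              refine ⟨hcov S hS (Or.inr (fun hRS' => hRS ?_)), ⟨fun _ => hpS, fun _ => hqS⟩⟩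
              exact Finset.insert_subset hqS hRS'
            · right
              refine ⟨sw q p S, ?_, sw_sw q p S⟩
              rw [mem_filter, mem_sw_left, mem_sw_right]
              refine ⟨hcov _ ?_ (Or.inl ?_), hpS, hqS⟩
              · rw [mem_powersetCard] at hS ⊢
                refine ⟨fun a ha => ?_, by rw [card_sw]; exact hS.2⟩
                by_cases h1 : a = q
                · rw [h1]; exact mem_insert_of_mem hqQ
                · by_cases h2 : a = p
                  · rw [h2]; exact mem_insert_self p Q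
                  · exact hS.1 ((mem_sw_other S h1 h2).mp ha)
              · rw [mem_sw_right]; exact hqS
          · by_cases hqS : q ∈ S
            · left; right
              exact ⟨hcov S hS (Or.inl hpS), hqS, hpS⟩
            · left; left
              exact ⟨hcov S hS (Or.inl hpS), ⟨fun h => absurd h hqS, fun h => absurd h hpS⟩⟩
      obtain ⟨F', hF', hcov⟩ := inner Q subset_rfl
      refine ⟨F', hF', insert p Q, by rw [card_insert_of_notMem hp, hQ], fun S hS => ?_⟩
      refine hcov S hS ?_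
      by_contra hcon
      push Not at hcon
      rw [mem_powersetCard] at hS
      have h1 : insert p Q ⊆ S := Finset.insert_subset hcon.1 hcon.2
      have h2 := Finset.card_le_card h1
      rw [card_insert_of_notMem hp, hQ, hS.2] at h2
      omega
  have hmP : m ≤ Fintype.card P := by
    obtain ⟨F, hF, T, hT⟩ := hne
    have := (mem_powersetCard.mp (hsub F hF hT)).2
    rw [← this]
    exact Finset.card_le_univ T
  obtain ⟨F, hF, Q, hQ, hQF⟩ := main (Fintype.card P) hmP le_rfl
  have hQu : Q = univ := by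
    rw [← Finset.card_eq_iff_eq_univ]; exact hQ
  rw [hQu] at hQF
  rw [← Finset.Subset.antisymm (hsub F hF) hQF]
  exact hF

end sw

section

variable {A X Y P : Type} [Fintype A] [Fintype X] [Fintype Y] [Fintype P]

/-- reflection symmetry of `w` on the coordinates `ι j` -/
def RefSym (ι : P ↪ A) (w : (A → X) → ℝ) : Prop :=
  ∀ i k : P, i ≠ k → ∃ (φ : Equiv.Perm A) (L : Set A), Half φ L ∧ PD φ L w ∧ ι i ∈ L ∧
    ∀ j, φ (ι j) = ι (Equiv.swap i k j)

theorem half_notMem {ι : P ↪ A} {φ : Equiv.Perm A} {L : Set A} (hL : Half φ L) {i k : P}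
    (hi : ι i ∈ L) (hφ : ∀ j, φ (ι j) = ι (Equiv.swap i k j)) (j : P) (hj : j ≠ i) :
    ι j ∉ L := by
  by_cases hjk : j = k
  · subst hjk
    have := hL.disj _ hi
    rwa [hφ i, Equiv.swap_apply_left] at this
  · intro h
    have := hL.disj _ h
    rw [hφ j, Equiv.swap_apply_of_ne_of_ne hj hjk] at this
    exact this h

theorem map_map_sw {ι : P ↪ A} {φ : Equiv.Perm A} {i k : P}
    (hφ : ∀ j, φ (ι j) = ι (Equiv.swap i k j)) (S : Finset P) :
    (S.map ι).map φ.toEmbedding = (sw i k S).map ι := by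
  unfold sw
  rw [Finset.map_map, Finset.map_map]
  congr 1
  ext j
  exact hφ j

theorem fold_family [Nonempty X] {V : X → Y → ℝ} (hV : ∀ x y, 0 ≤ V x y) (ι : P ↪ A)
    {w : (A → X) → ℝ} (hw0 : ∀ x, 0 ≤ w x) (hw : RefSym ι w) (F : Finset (Finset P)) {i k : P}
    (hik : i ≠ k) :
    ∑ x : A → X, w x * ∏ S ∈ F, cd V (S.map ι) x ≤
      (∑ x : A → X, w x * ∏ S ∈ keep i k F, cd V (S.map ι) x +
        ∑ x : A → X, w x * ∏ S ∈ keep k i F, cd V (S.map ι) x) / 2 := by
  obtain ⟨φ, L, hL, hwp, hi, hφ⟩ := hw i k hik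
  have hcd : ∀ (S : Finset P) (x : A → X), cd V (S.map ι) (x ∘ φ) = cd V ((sw i k S).map ι) x := by
    intro S x
    rw [cd_comp, map_map_sw hφ]
  have hw' : PD φ L (fun x => w x * ∏ S ∈ F.filter (fun S => i ∈ S ↔ k ∈ S),
      cd V (S.map ι) x) := by
    refine hwp.mul (PD.prod _ _ (fun S hS => cd_pd hV hL _ ?_))
    rw [map_map_sw hφ, sw_eq_self (mem_filter.mp hS).2]
  have hindS : ∀ S : Finset P, k ∉ S → Ind φ L (cd V (S.map ι) : (A → X) → ℝ) := by
    intro S hkS
    refine cd_ind V _ (fun a ha => ?_)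
    rw [Finset.mem_map] at ha
    obtain ⟨j, hj, rfl⟩ := ha
    rw [hφ j]
    refine half_notMem hL hi hφ _ (fun h => hkS ?_)
    have : j = k := by
      have h2 := congrArg (Equiv.swap i k) h
      rwa [Equiv.swap_apply_self, Equiv.swap_apply_left] at h2
    rw [← this]; exact hj
  set u : (A → X) → ℝ := fun x => ∏ S ∈ F.filter (fun S => i ∈ S ∧ k ∉ S), cd V (S.map ι) x
    with hu
  set v : (A → X) → ℝ := fun x =>
    ∏ S ∈ F.filter (fun S => k ∈ S ∧ i ∉ S), cd V ((sw i k S).map ι) x with hv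
  have hui : Ind φ L u := Ind.prod _ _ (fun S hS => hindS S (mem_filter.mp hS).2.2)
  have hvi : Ind φ L v := Ind.prod _ _ (fun S hS => hindS _ (by
    rw [mem_sw_right]; exact (mem_filter.mp hS).2.2))
  have hf := fold hL hw' hui hvi
  have e1 : ∀ x : A → X, (w x * ∏ S ∈ F.filter (fun S => i ∈ S ↔ k ∈ S), cd V (S.map ι) x) *
      (u x * v (x ∘ φ)) = w x * ∏ S ∈ F, cd V (S.map ι) x := by
    intro x
    have h1 : v (x ∘ φ) = ∏ S ∈ F.filter (fun S => k ∈ S ∧ i ∉ S), cd V (S.map ι) x := by
      refine Finset.prod_congr rfl (fun S _ => ?_)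
      rw [hcd, sw_sw]
    rw [h1]
    have h2 : ∏ S ∈ F, cd V (S.map ι) x =
        (∏ S ∈ F.filter (fun S => i ∈ S ↔ k ∈ S), cd V (S.map ι) x) *
        ∏ S ∈ F.filter (fun S => ¬(i ∈ S ↔ k ∈ S)), cd V (S.map ι) x :=
      (Finset.prod_filter_mul_prod_filter_not F _ _).symm
    have h3 : ∏ S ∈ F.filter (fun S => ¬(i ∈ S ↔ k ∈ S)), cd V (S.map ι) x =
        (∏ S ∈ F.filter (fun S => i ∈ S ∧ k ∉ S), cd V (S.map ι) x) *
        ∏ S ∈ F.filter (fun S => k ∈ S ∧ i ∉ S), cd V (S.map ι) x := by
      rw [← Finset.prod_union]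
      · congr 1
        ext S
        rw [mem_union, mem_filter, mem_filter, mem_filter]
        tauto
      · rw [Finset.disjoint_left]
        intro S h1 h2
        rw [mem_filter] at h1 h2
        tauto
    rw [h2, h3]
    simp only [hu]
    ring
  have e2 : ∀ x : A → X, (w x * ∏ S ∈ F.filter (fun S => i ∈ S ↔ k ∈ S), cd V (S.map ι) x) *
      (u x * u (x ∘ φ)) = w x * ∏ S ∈ keep i k F, cd V (S.map ι) x := by
    intro x
    rw [prod_keep]
    have h1 : u (x ∘ φ) = ∏ S ∈ F.filter (fun S => i ∈ S ∧ k ∉ S), cd V ((sw i k S).map ι) x :=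
      Finset.prod_congr rfl (fun S _ => hcd S x)
    rw [h1]
    simp only [hu]
    ring
  have e3 : ∀ x : A → X, (w x * ∏ S ∈ F.filter (fun S => i ∈ S ↔ k ∈ S), cd V (S.map ι) x) *
      (v x * v (x ∘ φ)) = w x * ∏ S ∈ keep k i F, cd V (S.map ι) x := by
    intro x
    rw [prod_keep]
    have h1 : v (x ∘ φ) = ∏ S ∈ F.filter (fun S => k ∈ S ∧ i ∉ S), cd V (S.map ι) x := by
      refine Finset.prod_congr rfl (fun S _ => ?_)
      rw [hcd, sw_sw]
    have h2 : F.filter (fun S => k ∈ S ↔ i ∈ S) = F.filter (fun S => i ∈ S ↔ k ∈ S) :=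
      Finset.filter_congr (fun S _ => Iff.comm)
    rw [h1, h2]
    simp only [hv]
    have h3 : ∏ S ∈ F.filter (fun S => k ∈ S ∧ i ∉ S), cd V ((sw i k S).map ι) x =
        ∏ S ∈ F.filter (fun S => k ∈ S ∧ i ∉ S), cd V ((sw k i S).map ι) x :=
      Finset.prod_congr rfl (fun S _ => by rw [sw_comm])
    rw [h3]
    ring
  simp only [e1, e2, e3] at hf
  have hnn : ∀ F' : Finset (Finset P), 0 ≤ ∑ x : A → X, w x * ∏ S ∈ F', cd V (S.map ι) x :=
    fun F' => Finset.sum_nonneg (fun x _ => mul_nonneg (hw0 x)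
      (Finset.prod_nonneg (fun S _ => cd_nonneg hV _ _)))
  have h1 := hnn (keep i k F)
  have h2 := hnn (keep k i F)
  by_contra hlt
  push Not at hlt
  nlinarith [sq_nonneg (∑ x : A → X, w x * ∏ S ∈ keep i k F, cd V (S.map ι) x -
    ∑ x : A → X, w x * ∏ S ∈ keep k i F, cd V (S.map ι) x)]

/-- Adding all sets of size `m`. -/
theorem chess [Nonempty X] [Nonempty Y] {V : X → Y → ℝ} (hV : ∀ x y, 0 ≤ V x y)
    (hd : ∀ x, 1 ≤ (Fintype.card Y : ℝ)⁻¹ * ∑ y, V x y) (ι : P ↪ A)
    {w : (A → X) → ℝ} (hw0 : ∀ x, 0 ≤ w x) (hw : RefSym ι w) (m : ℕ) :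
    ∑ x : A → X, w x ≤ ∑ x : A → X, w x * ∏ S ∈ powersetCard m (univ : Finset P),
      cd V (S.map ι) x := by
  by_cases hm : m ≤ Fintype.card P
  swap
  · have : powersetCard m (univ : Finset P) = ∅ := by
      rw [Finset.powersetCard_eq_empty, Finset.card_univ]
      omega
    rw [this]
    simp
  set 𝒪 := powersetCard m (univ : Finset P) with h𝒪
  have hN : 0 < 𝒪.card := by
    rw [h𝒪, card_powersetCard, Finset.card_univ]
    exact Nat.choose_pos hm
  have hNr : (0 : ℝ) < 𝒪.card := by exact_mod_cast hN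
  set τ : Finset (Finset P) → ℝ := fun F => ∑ x : A → X, w x * ∏ S ∈ F, cd V (S.map ι) x
    with hτ
  have hτ0 : τ ∅ = ∑ x : A → X, w x := by simp [hτ]
  have hone : ∀ T ∈ 𝒪, τ ∅ ≤ τ {T} := by
    intro T hT
    rw [hτ0]
    have h1 := rl hV hd w hw0 (T.map ι) (by
      intro a ha b hb hab
      rw [Finset.mem_map] at ha hb
      obtain ⟨i, hi, rfl⟩ := ha
      obtain ⟨k, hk, rfl⟩ := hb
      have hik : i ≠ k := fun h => hab (by rw [h])
      obtain ⟨φ, L, hL, hwp, hiL, hφ⟩ := hw i k hik
      refine ⟨φ, L, hL, hwp, by rw [hφ i, Equiv.swap_apply_left], hiL, ?_⟩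
      intro c hc hci hck
      rw [Finset.mem_map] at hc
      obtain ⟨j, hj, rfl⟩ := hc
      rw [hφ j, Equiv.swap_apply_of_ne_of_ne (fun h => hci (by rw [h])) (fun h => hck (by rw [h]))])
    simpa [hτ] using h1
  have hfold : ∀ F : Finset (Finset P), ∀ i k : P, i ≠ k →
      τ F ≤ (τ (keep i k F) + τ (keep k i F)) / 2 := fun F i k hik =>
    fold_family hV ι hw0 hw F hik
  set a : Finset (Finset P) → ℝ := fun F => τ F - (F.card : ℝ) / 𝒪.card * τ 𝒪 -
    (1 - (F.card : ℝ) / 𝒪.card) * τ ∅ with ha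
  have hastep : ∀ F : Finset (Finset P), ∀ i k : P, i ≠ k →
      a F ≤ (a (keep i k F) + a (keep k i F)) / 2 := by
    intro F i k hik
    have h1 := hfold F i k hik
    have h2 : ((keep i k F).card : ℝ) + (keep k i F).card = 2 * F.card := by
      exact_mod_cast card_keep_add i k F
    simp only [ha]
    have h3 : ((keep i k F).card : ℝ) / 𝒪.card * τ 𝒪 + ((keep k i F).card : ℝ) / 𝒪.card * τ 𝒪 =
        2 * ((F.card : ℝ) / 𝒪.card * τ 𝒪) := by
      have h4 : ((keep i k F).card : ℝ) / 𝒪.card * τ 𝒪 + ((keep k i F).card : ℝ) / 𝒪.card * τ 𝒪 =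
        (((keep i k F).card : ℝ) + (keep k i F).card) / 𝒪.card * τ 𝒪 := by ring
      rw [h4, h2]; ring
    have h5 : (1 - ((keep i k F).card : ℝ) / 𝒪.card) * τ ∅ +
        (1 - ((keep k i F).card : ℝ) / 𝒪.card) * τ ∅ =
        2 * ((1 - (F.card : ℝ) / 𝒪.card) * τ ∅) := by
      have h6 : (1 - ((keep i k F).card : ℝ) / 𝒪.card) * τ ∅ +
        (1 - ((keep k i F).card : ℝ) / 𝒪.card) * τ ∅ =
        (2 - (((keep i k F).card : ℝ) + (keep k i F).card) / 𝒪.card) * τ ∅ := by ring
      rw [h6, h2]; ring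
    linarith
  have ha0 : a ∅ = 0 := by simp [ha]
  have ha1 : a 𝒪 = 0 := by
    simp only [ha]
    rw [div_self hNr.ne']
    ring
  have hle : ∀ F ⊆ 𝒪, a F ≤ 0 := by
    obtain ⟨Fm, hFm, hmax⟩ := Finset.exists_max_image 𝒪.powerset a ⟨∅, by simp⟩
    by_contra hcon
    push Not at hcon
    obtain ⟨F₀, hF₀, hpos⟩ := hcon
    have hFm0 : 0 < a Fm := lt_of_lt_of_le hpos (hmax F₀ (mem_powerset.mpr hF₀))
    have hper := percolate (m := m) (fun F => F ⊆ 𝒪 ∧ a F = a Fm) (fun F hF => hF.1)
      (fun F hF i k hik => by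
        refine ⟨keep_subset i k hF.1, ?_⟩
        have h1 := hastep F i k hik
        have h2 := hmax _ (mem_powerset.mpr (keep_subset i k hF.1))
        have h3 := hmax _ (mem_powerset.mpr (keep_subset k i hF.1))
        rw [hF.2] at h1
        linarith)
      ⟨Fm, ⟨mem_powerset.mp hFm, rfl⟩, by
        rw [Finset.nonempty_iff_ne_empty]
        rintro rfl
        rw [ha0] at hFm0
        exact lt_irrefl _ hFm0⟩
    have := hper.2
    rw [← h𝒪, ha1] at this
    linarith
  obtain ⟨T, hT⟩ := Finset.card_pos.mp hN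
  have h1 := hle {T} (Finset.singleton_subset_iff.mpr hT)
  have h2 := hone T hT
  simp only [ha, Finset.card_singleton, Nat.cast_one] at h1
  rw [← hτ0]
  show τ ∅ ≤ τ 𝒪
  have h3 : (1 : ℝ) / 𝒪.card * τ ∅ ≤ 1 / 𝒪.card * τ 𝒪 := by linarith
  exact le_of_mul_le_mul_left h3 (by positivity)

/-- The symmetric families keep the reflection symmetry. -/
theorem RefSym.mul_all {V : X → Y → ℝ} (hV : ∀ x y, 0 ≤ V x y) (ι : P ↪ A)
    {w : (A → X) → ℝ} (hw : RefSym ι w) (m : ℕ) :
    RefSym ι (fun x => w x * ∏ S ∈ powersetCard m (univ : Finset P), cd V (S.map ι) x) := by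
  intro i k hik
  obtain ⟨φ, L, hL, hwp, hi, hφ⟩ := hw i k hik
  refine ⟨φ, L, hL, hwp.mul ?_, hi, hφ⟩
  refine pd_family hV hL _ (fun S => S.map ι) (sw i k) {S | i ∈ S ∧ k ∉ S} ?_ ?_ ?_ ?_ ?_ ?_
  · intro S hS
    rw [mem_powersetCard] at hS ⊢
    exact ⟨subset_univ _, by rw [card_sw]; exact hS.2⟩
  · intro S _
    exact sw_sw i k S
  · intro S _ hS h
    rw [Set.mem_setOf_eq, mem_sw_left, mem_sw_right] at h
    exact hS.2 h.1
  · intro S _
    exact (map_map_sw hφ S).symm
  · intro S _ h1 h2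
    rw [Set.mem_setOf_eq, mem_sw_left, mem_sw_right] at h2
    rw [Set.mem_setOf_eq] at h1
    refine sw_eq_self ?_
    tauto
  · intro S _ hS a ha
    rw [Finset.mem_map] at ha
    obtain ⟨j, hj, rfl⟩ := ha
    rw [hφ j]
    refine half_notMem hL hi hφ _ (fun h => hS.2 ?_)
    have : j = k := by
      have h2 := congrArg (Equiv.swap i k) h
      rwa [Equiv.swap_apply_self, Equiv.swap_apply_left] at h2
    rw [← this]; exact hj

end

end Pool.Agent.Lib.MP_426a66_co.H54
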