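import Pool.Agent.Lib.MP_426a66_co.H54.Core3

/-!
# Adding vertices with enough neighbourhoods of every realised size
-/

set_option autoImplicit false
set_option linter.unusedSectionVars false

namespace Pool.Agent.Lib.MP_426a66_co.H54

open Finset Classical

/-- The tangent inequality for products of powers with exponents at least one. -/
theorem tangent {K : Type} [DecidableEq K] (s : Finset K) (h t : K → ℝ) (hh : ∀ k ∈ s, 0 ≤ h k)
    (ht : ∀ k ∈ s, 1 ≤ t k) :
    ∏ k ∈ s, h k + ∑ k ∈ s, (t k - 1) * (∏ l ∈ s, h l - ∏ l ∈ s.erase k, h l) ≤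
      ∏ k ∈ s, (h k) ^ (t k) := by
  by_cases h0 : ∃ k ∈ s, h k = 0
  · obtain ⟨k, hk, hk0⟩ := h0
    have e1 : ∏ l ∈ s, h l = 0 := Finset.prod_eq_zero hk hk0
    have e2 : 0 ≤ ∏ k ∈ s, (h k) ^ (t k) :=
      Finset.prod_nonneg (fun l hl => Real.rpow_nonneg (hh l hl) _)
    have e3 : ∑ k ∈ s, (t k - 1) * (∏ l ∈ s, h l - ∏ l ∈ s.erase k, h l) ≤ 0 := by
      refine Finset.sum_nonpos (fun l hl => ?_)
      rw [e1]
      have h1 : 0 ≤ ∏ j ∈ s.erase l, h j :=
        Finset.prod_nonneg (fun j hj => hh j (Finset.mem_of_mem_erase hj))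
      have h2 := ht l hl
      nlinarith
    linarith
  · push Not at h0
    have hpos : ∀ k ∈ s, 0 < h k := fun k hk => lt_of_le_of_ne (hh k hk) (h0 k hk).symm
    have hP : 0 < ∏ k ∈ s, h k := Finset.prod_pos hpos
    have e1 : ∏ k ∈ s, (h k) ^ (t k) =
        (∏ k ∈ s, h k) * Real.exp (∑ k ∈ s, (t k - 1) * Real.log (h k)) := by
      rw [Real.exp_sum, ← Finset.prod_mul_distrib]
      refine Finset.prod_congr rfl (fun k hk => ?_)
      rw [Real.rpow_def_of_pos (hpos k hk)]
      nth_rewrite 2 [← Real.exp_log (hpos k hk)]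
      rw [← Real.exp_add]
      congr 1
      ring
    have e2 := Real.add_one_le_exp (∑ k ∈ s, (t k - 1) * Real.log (h k))
    have e3 : ∑ k ∈ s, (t k - 1) * (∏ l ∈ s, h l - ∏ l ∈ s.erase k, h l) ≤
        (∏ k ∈ s, h k) * ∑ k ∈ s, (t k - 1) * Real.log (h k) := by
      rw [Finset.mul_sum]
      refine Finset.sum_le_sum (fun k hk => ?_)
      have h1 : 1 - (h k)⁻¹ ≤ Real.log (h k) := Real.one_sub_inv_le_log_of_pos (hpos k hk)
      have h2 : ∏ l ∈ s.erase k, h l = (∏ l ∈ s, h l) * (h k)⁻¹ := by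
        rw [← Finset.mul_prod_erase s h hk, mul_comm (h k), mul_assoc,
          mul_inv_cancel₀ (h0 k hk), mul_one]
      rw [h2]
      have h3 := ht k hk
      have h4 : (∏ l ∈ s, h l - (∏ l ∈ s, h l) * (h k)⁻¹) ≤ (∏ l ∈ s, h l) * Real.log (h k) := by
        nlinarith
      nlinarith
    rw [e1]
    nlinarith

theorem exists_perm_map {P : Type} [Fintype P] (S T : Finset P) (h : S.card = T.card) :
    ∃ ρ : Equiv.Perm P, S.map ρ.toEmbedding = T := by
  let e : {x // x ∈ S} ≃ {x // x ∈ T} := Finset.equivOfCardEq h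
  refine ⟨e.extendSubtype, ?_⟩
  refine Finset.eq_of_subset_of_card_le ?_ (by rw [Finset.card_map, h])
  intro y hy
  rw [Finset.mem_map] at hy
  obtain ⟨x, hx, rfl⟩ := hy
  exact e.extendSubtype_mem x hx

section

variable {A X Y P : Type} [Fintype A] [Fintype X] [Fintype Y] [Fintype P]

/-- product over all sets of size `m` -/
noncomputable def hm (V : X → Y → ℝ) (ι : P ↪ A) (m : ℕ) (x : A → X) : ℝ :=
  ∏ S ∈ powersetCard m (univ : Finset P), cd V (S.map ι) x

theorem hm_nonneg {V : X → Y → ℝ} (hV : ∀ x y, 0 ≤ V x y) (ι : P ↪ A) (m : ℕ) (x : A → X) :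
    0 ≤ hm V ι m x := Finset.prod_nonneg (fun S _ => cd_nonneg hV _ _)

theorem refSym_prod {V : X → Y → ℝ} (hV : ∀ x y, 0 ≤ V x y) (ι : P ↪ A)
    {w : (A → X) → ℝ} (hw : RefSym ι w) (K : Finset ℕ) :
    RefSym ι (fun x => w x * ∏ m ∈ K, hm V ι m x) := by
  induction K using Finset.induction_on with
  | empty => simpa using hw
  | insert m K hmK ih =>
    have h1 := ih.mul_all hV ι m
    have h2 : (fun x : A → X => w x * ∏ m' ∈ insert m K, hm V ι m' x) =
        fun x => (w x * ∏ m ∈ K, hm V ι m x) *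
          ∏ S ∈ powersetCard m (univ : Finset P), cd V (S.map ι) x := by
      funext x
      rw [Finset.prod_insert hmK]
      unfold hm
      ring
    rw [h2]
    exact h1

theorem step_prod [Nonempty X] [Nonempty Y] {V : X → Y → ℝ} (hV : ∀ x y, 0 ≤ V x y)
    (hd : ∀ x, 1 ≤ (Fintype.card Y : ℝ)⁻¹ * ∑ y, V x y) (ι : P ↪ A)
    {w : (A → X) → ℝ} (hw0 : ∀ x, 0 ≤ w x) (hw : RefSym ι w) (K : Finset ℕ) (m : ℕ)
    (hmK : m ∈ K) :
    ∑ x : A → X, w x * ∏ l ∈ K.erase m, hm V ι l x ≤ ∑ x : A → X, w x * ∏ l ∈ K, hm V ι l x := by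
  have h1 := chess hV hd ι (w := fun x => w x * ∏ l ∈ K.erase m, hm V ι l x)
    (fun x => mul_nonneg (hw0 x) (Finset.prod_nonneg (fun l _ => hm_nonneg hV ι l x)))
    (refSym_prod hV ι hw _) m
  refine h1.trans (le_of_eq (Finset.sum_congr rfl (fun x _ => ?_)))
  rw [← Finset.mul_prod_erase K (fun l => hm V ι l x) hmK]
  unfold hm
  ring

theorem base_prod [Nonempty X] [Nonempty Y] {V : X → Y → ℝ} (hV : ∀ x y, 0 ≤ V x y)
    (hd : ∀ x, 1 ≤ (Fintype.card Y : ℝ)⁻¹ * ∑ y, V x y) (ι : P ↪ A)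
    {w : (A → X) → ℝ} (hw0 : ∀ x, 0 ≤ w x) (hw : RefSym ι w) (K : Finset ℕ) :
    ∑ x : A → X, w x ≤ ∑ x : A → X, w x * ∏ l ∈ K, hm V ι l x := by
  induction K using Finset.induction_on with
  | empty => simp
  | insert m K hmK ih =>
    refine ih.trans ?_
    have h1 := step_prod hV hd ι hw0 hw (insert m K) m (mem_insert_self m K)
    rwa [Finset.erase_insert hmK] at h1

/-- `w` is invariant. -/
theorem PD.comp_eq {φ : Equiv.Perm A} {L : Set A} (hL : Half φ L) {w : (A → X) → ℝ}
    (h : PD φ L w) (x : A → X) : w (x ∘ φ) = w x := by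
  obtain ⟨Z, iZ, r, hr, hw⟩ := h
  rw [hw, hw]
  refine Finset.sum_congr rfl (fun z _ => ?_)
  have : (x ∘ φ) ∘ φ = x := by
    funext a
    simp [Function.comp_apply, hL.inv a]
  rw [this]
  ring

theorem sum_swap_inv (V : X → Y → ℝ) (ι : P ↪ A) {w : (A → X) → ℝ} (hw : RefSym ι w)
    {C : Type} [Fintype C] (N : C → Finset P) (i k : P) :
    ∑ x : A → X, w x * ∏ c, cd V ((sw i k (N c)).map ι) x =
      ∑ x : A → X, w x * ∏ c, cd V ((N c).map ι) x := by
  by_cases hik : i = k
  · subst hik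
    refine Finset.sum_congr rfl (fun x _ => ?_)
    congr 1
    exact Finset.prod_congr rfl (fun c _ => by rw [sw_eq_self Iff.rfl])
  · obtain ⟨φ, L, hL, hwp, hi, hφ⟩ := hw i k hik
    have h1 := (Equiv.arrowCongr φ (Equiv.refl X)).symm.sum_comp
      (fun x : A → X => w x * ∏ c, cd V ((N c).map ι) x)
    rw [← h1]
    refine Finset.sum_congr rfl (fun x _ => ?_)
    have h2 : (Equiv.arrowCongr φ (Equiv.refl X)).symm x = x ∘ φ := rfl
    rw [h2, hwp.comp_eq hL]
    congr 1
    refine Finset.prod_congr rfl (fun c _ => ?_)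
    rw [cd_comp, map_map_sw hφ]

theorem sum_perm_inv (V : X → Y → ℝ) (ι : P ↪ A) {w : (A → X) → ℝ} (hw : RefSym ι w)
    {C : Type} [Fintype C] (σ : Equiv.Perm P) : ∀ N : C → Finset P,
    ∑ x : A → X, w x * ∏ c, cd V (((N c).map σ.toEmbedding).map ι) x =
      ∑ x : A → X, w x * ∏ c, cd V ((N c).map ι) x := by
  induction σ using Equiv.Perm.swap_induction_on with
  | one =>
    intro N
    refine Finset.sum_congr rfl (fun x _ => ?_)
    congr 1
    refine Finset.prod_congr rfl (fun c _ => ?_)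
    have h1 : (Equiv.toEmbedding (1 : Equiv.Perm P)) = Function.Embedding.refl P := rfl
    rw [h1, Finset.map_refl]
  | swap_mul σ i k hik ih =>
    intro N
    rw [← ih N, ← sum_swap_inv V ι hw (fun c => (N c).map σ.toEmbedding) i k]
    refine Finset.sum_congr rfl (fun x _ => ?_)
    congr 1
    refine Finset.prod_congr rfl (fun c _ => ?_)
    congr 2
    unfold sw
    rw [Finset.map_map]
    rfl

/-- product over all images of `S` -/
theorem orbit_prod {V : X → Y → ℝ} (hV : ∀ x y, 0 ≤ V x y) (ι : P ↪ A) (S : Finset P)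
    (x : A → X) :
    (∏ σ : Equiv.Perm P, cd V ((S.map σ.toEmbedding).map ι) x) ^
        ((Fintype.card (Equiv.Perm P) : ℝ)⁻¹) =
      (hm V ι S.card x) ^ (((Fintype.card P).choose S.card : ℝ)⁻¹) := by
  set M := Fintype.card (Equiv.Perm P) with hM
  set m := S.card with hm'
  set c : Finset P → ℝ := fun T => ∏ σ : Equiv.Perm P, cd V ((T.map σ.toEmbedding).map ι) x
    with hc
  have hc0 : ∀ T, 0 ≤ c T := fun T => Finset.prod_nonneg (fun σ _ => cd_nonneg hV _ _)
  have hMp : (0 : ℝ) < M := by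
    have : 0 < Fintype.card (Equiv.Perm P) := Fintype.card_pos
    rw [hM]; exact_mod_cast this
  have hNp : (0 : ℝ) < ((Fintype.card P).choose m : ℝ) := by
    have : 0 < (Fintype.card P).choose m := Nat.choose_pos (Finset.card_le_univ S)
    exact_mod_cast this
  have hconst : ∀ T ∈ powersetCard m (univ : Finset P), c T = c S := by
    intro T hT
    obtain ⟨ρ, hρ⟩ := exists_perm_map S T (mem_powersetCard.mp hT).2.symm
    simp only [hc]
    rw [← hρ]
    have h1 := Equiv.prod_comp (Equiv.mulRight ρ)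
      (fun σ : Equiv.Perm P => cd V ((S.map σ.toEmbedding).map ι) x)
    rw [← h1]
    refine Finset.prod_congr rfl (fun σ _ => ?_)
    congr 2
    rw [Finset.map_map]
    rfl
  have h1 : ∏ T ∈ powersetCard m (univ : Finset P), c T = c S ^ ((Fintype.card P).choose m) := by
    rw [Finset.prod_congr rfl hconst, Finset.prod_const, card_powersetCard, Finset.card_univ]
  have h2 : ∏ T ∈ powersetCard m (univ : Finset P), c T = hm V ι m x ^ M := by
    simp only [hc]
    rw [Finset.prod_comm]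
    have h3 : ∀ σ : Equiv.Perm P, ∏ T ∈ powersetCard m (univ : Finset P),
        cd V ((T.map σ.toEmbedding).map ι) x = hm V ι m x := by
      intro σ
      unfold hm
      refine Finset.prod_nbij' (fun T => T.map σ.toEmbedding)
        (fun T => T.map σ.symm.toEmbedding) ?_ ?_ ?_ ?_ ?_
      · intro T hT
        rw [mem_powersetCard] at hT ⊢
        exact ⟨subset_univ _, by rw [Finset.card_map]; exact hT.2⟩
      · intro T hT
        rw [mem_powersetCard] at hT ⊢
        exact ⟨subset_univ _, by rw [Finset.card_map]; exact hT.2⟩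
      · intro T _
        rw [Finset.map_map]
        ext j
        simp
      · intro T _
        rw [Finset.map_map]
        ext j
        simp
      · intro T _
        rfl
    rw [Finset.prod_congr rfl (fun σ _ => h3 σ), Finset.prod_const, Finset.card_univ]
  rw [h1] at h2
  have h4 : (c S ^ ((Fintype.card P).choose m)) ^
      ((((Fintype.card P).choose m : ℝ) * M)⁻¹) = (hm V ι m x ^ M) ^
      ((((Fintype.card P).choose m : ℝ) * M)⁻¹) := by rw [h2]
  rw [← Real.rpow_natCast, ← Real.rpow_mul (hc0 S), ← Real.rpow_natCast,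
    ← Real.rpow_mul (hm_nonneg hV ι m x)] at h4
  have e1 : (((Fintype.card P).choose m : ℕ) : ℝ) * ((((Fintype.card P).choose m : ℝ) * M)⁻¹) =
      (M : ℝ)⁻¹ := by
    field_simp
  have e2 : (M : ℝ) * ((((Fintype.card P).choose m : ℝ) * M)⁻¹) =
      (((Fintype.card P).choose m : ℝ))⁻¹ := by
    field_simp
  rw [e1, e2] at h4
  exact h4

/-- Main inequality: adding new vertices to a reflection symmetric set. -/
theorem core [Nonempty X] [Nonempty Y] {V : X → Y → ℝ} (hV : ∀ x y, 0 ≤ V x y)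
    (hd : ∀ x, 1 ≤ (Fintype.card Y : ℝ)⁻¹ * ∑ y, V x y) (ι : P ↪ A)
    {w : (A → X) → ℝ} (hw0 : ∀ x, 0 ≤ w x) (hw : RefSym ι w)
    {C : Type} [Fintype C] (N : C → Finset P)
    (hcount : ∀ m : ℕ, 1 ≤ m → (univ.filter (fun c => (N c).card = m)).card = 0 ∨
      (Fintype.card P).choose m ≤ (univ.filter (fun c => (N c).card = m)).card) :
    ∑ x : A → X, w x ≤ ∑ x : A → X, w x * ∏ c, cd V ((N c).map ι) x := by
  set M := Fintype.card (Equiv.Perm P) with hM
  have hMp : (0 : ℝ) < M := by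
    have : 0 < Fintype.card (Equiv.Perm P) := Fintype.card_pos
    rw [hM]; exact_mod_cast this
  set K : Finset ℕ := univ.image (fun c => (N c).card) with hK
  set t : ℕ → ℝ := fun m => ((univ.filter (fun c => (N c).card = m)).card : ℝ) *
    ((Fintype.card P).choose m : ℝ)⁻¹ with ht
  have ht1 : ∀ m ∈ K, 1 ≤ t m := by
    intro m hmK
    rw [hK, Finset.mem_image] at hmK
    obtain ⟨c, -, hc⟩ := hmK
    have hpos : 0 < (univ.filter (fun c => (N c).card = m)).card :=
      Finset.card_pos.mpr ⟨c, by rw [mem_filter]; exact ⟨mem_univ _, hc⟩⟩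
    have hle : (Fintype.card P).choose m ≤ (univ.filter (fun c => (N c).card = m)).card := by
      by_cases h1 : 1 ≤ m
      · rcases hcount m h1 with h2 | h2
        · omega
        · exact h2
      · have : m = 0 := by omega
        rw [this] at hpos ⊢
        rw [Nat.choose_zero_right]
        exact hpos
    have hNp : (0 : ℝ) < ((Fintype.card P).choose m : ℝ) := by
      have : 0 < (Fintype.card P).choose m := Nat.choose_pos (by
        rw [← hc]; exact Finset.card_le_univ _)
      exact_mod_cast this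
    simp only [ht]
    rw [← div_eq_mul_inv, le_div_iff₀ hNp, one_mul]
    exact_mod_cast hle
  -- the average over all permutations
  have h1 : ∑ x : A → X, w x * ∏ c, cd V ((N c).map ι) x =
      ∑ x : A → X, w x * ∑ σ : Equiv.Perm P,
        (M : ℝ)⁻¹ * ∏ c, cd V (((N c).map σ.toEmbedding).map ι) x := by
    have h2 : ∑ x : A → X, w x * ∑ σ : Equiv.Perm P,
        (M : ℝ)⁻¹ * ∏ c, cd V (((N c).map σ.toEmbedding).map ι) x =
        ∑ σ : Equiv.Perm P, (M : ℝ)⁻¹ *
          ∑ x : A → X, w x * ∏ c, cd V (((N c).map σ.toEmbedding).map ι) x := by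
      simp only [Finset.mul_sum]
      rw [Finset.sum_comm]
      refine Finset.sum_congr rfl (fun σ _ => Finset.sum_congr rfl (fun x _ => ?_))
      ring
    have h3 : ∑ σ : Equiv.Perm P, (M : ℝ)⁻¹ *
          ∑ x : A → X, w x * ∏ c, cd V (((N c).map σ.toEmbedding).map ι) x =
        ∑ σ : Equiv.Perm P, (M : ℝ)⁻¹ *
          ∑ x : A → X, w x * ∏ c, cd V ((N c).map ι) x :=
      Finset.sum_congr rfl (fun σ _ => by rw [sum_perm_inv V ι hw σ N])
    rw [h2, h3, Finset.sum_const, Finset.card_univ, nsmul_eq_mul, ← mul_assoc,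
      mul_inv_cancel₀ hMp.ne', one_mul]
  have h3 : ∀ x : A → X, ∏ m ∈ K, (hm V ι m x) ^ (t m) ≤ ∑ σ : Equiv.Perm P,
        (M : ℝ)⁻¹ * ∏ c, cd V (((N c).map σ.toEmbedding).map ι) x := by
    intro x
    have h4 := Real.geom_mean_le_arith_mean_weighted (univ : Finset (Equiv.Perm P))
      (fun _ => (M : ℝ)⁻¹) (fun σ => ∏ c, cd V (((N c).map σ.toEmbedding).map ι) x)
      (fun _ _ => by positivity)
      (by rw [Finset.sum_const, Finset.card_univ, nsmul_eq_mul, mul_inv_cancel₀ hMp.ne'])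
      (fun σ _ => Finset.prod_nonneg (fun c _ => cd_nonneg hV _ _))
    refine le_trans (le_of_eq ?_) h4
    have h5 : ∀ σ : Equiv.Perm P,
        (∏ c, cd V (((N c).map σ.toEmbedding).map ι) x) ^ ((M : ℝ)⁻¹) =
        ∏ c, (cd V (((N c).map σ.toEmbedding).map ι) x) ^ ((M : ℝ)⁻¹) := fun σ =>
      (Real.finsetProd_rpow _ _ (fun c _ => cd_nonneg hV _ _) _).symm
    rw [Finset.prod_congr rfl (fun σ _ => h5 σ), Finset.prod_comm]
    have h6 : ∀ c : C, ∏ σ : Equiv.Perm P,
        (cd V (((N c).map σ.toEmbedding).map ι) x) ^ ((M : ℝ)⁻¹) =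
        (hm V ι (N c).card x) ^ (((Fintype.card P).choose (N c).card : ℝ)⁻¹) := by
      intro c
      rw [Real.finsetProd_rpow _ _ (fun σ _ => cd_nonneg hV _ _)]
      exact orbit_prod hV ι (N c) x
    rw [Finset.prod_congr rfl (fun c _ => h6 c)]
    have h7 := Finset.prod_fiberwise_of_maps_to (s := (univ : Finset C)) (t := K)
      (g := fun c => (N c).card) (fun c _ => by rw [hK]; exact Finset.mem_image_of_mem _ (mem_univ c))
      (fun c => (hm V ι (N c).card x) ^ (((Fintype.card P).choose (N c).card : ℝ)⁻¹))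
    rw [← h7]
    refine Finset.prod_congr rfl (fun m _ => ?_)
    have h8 : ∏ c ∈ univ.filter (fun c => (N c).card = m),
        (hm V ι (N c).card x) ^ (((Fintype.card P).choose (N c).card : ℝ)⁻¹) =
        ∏ c ∈ univ.filter (fun c => (N c).card = m),
        (hm V ι m x) ^ (((Fintype.card P).choose m : ℝ)⁻¹) := by
      refine Finset.prod_congr rfl (fun c hc => ?_)
      rw [(mem_filter.mp hc).2]
    rw [h8, Finset.prod_const, ← Real.rpow_natCast, ← Real.rpow_mul (hm_nonneg hV ι m x)]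
    congr 1
    simp only [ht]
    ring
  calc ∑ x : A → X, w x ≤ ∑ x : A → X, w x * ∏ m ∈ K, hm V ι m x :=
        base_prod hV hd ι hw0 hw K
    _ ≤ ∑ x : A → X, w x * (∏ m ∈ K, hm V ι m x + ∑ m ∈ K, (t m - 1) *
          (∏ l ∈ K, hm V ι l x - ∏ l ∈ K.erase m, hm V ι l x)) := by
        have e1 : ∑ x : A → X, w x * (∏ m ∈ K, hm V ι m x + ∑ m ∈ K, (t m - 1) *
            (∏ l ∈ K, hm V ι l x - ∏ l ∈ K.erase m, hm V ι l x)) =
            ∑ x : A → X, w x * ∏ m ∈ K, hm V ι m x + ∑ m ∈ K, (t m - 1) *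
              (∑ x : A → X, w x * ∏ l ∈ K, hm V ι l x -
                ∑ x : A → X, w x * ∏ l ∈ K.erase m, hm V ι l x) := by
          simp only [mul_add, Finset.sum_add_distrib]
          congr 1
          simp only [← Finset.sum_sub_distrib, Finset.mul_sum]
          rw [Finset.sum_comm]
          refine Finset.sum_congr rfl (fun m _ => Finset.sum_congr rfl (fun x _ => ?_))
          ring
        rw [e1]
        have e2 : 0 ≤ ∑ m ∈ K, (t m - 1) * (∑ x : A → X, w x * ∏ l ∈ K, hm V ι l x -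
                ∑ x : A → X, w x * ∏ l ∈ K.erase m, hm V ι l x) :=
          Finset.sum_nonneg (fun m hmK => mul_nonneg (by linarith [ht1 m hmK])
            (by linarith [step_prod hV hd ι hw0 hw K m hmK]))
        linarith
    _ ≤ ∑ x : A → X, w x * ∏ m ∈ K, (hm V ι m x) ^ (t m) := by
        refine Finset.sum_le_sum (fun x _ => mul_le_mul_of_nonneg_left ?_ (hw0 x))
        exact tangent K (fun m => hm V ι m x) t (fun m _ => hm_nonneg hV ι m x) ht1
    _ ≤ ∑ x : A → X, w x * ∑ σ : Equiv.Perm P,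
        (M : ℝ)⁻¹ * ∏ c, cd V (((N c).map σ.toEmbedding).map ι) x :=
        Finset.sum_le_sum (fun x _ => mul_le_mul_of_nonneg_left (h3 x) (hw0 x))
    _ = _ := h1.symm

end

end Pool.Agent.Lib.MP_426a66_co.H54
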