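import Pool.Agent.Lib.MP_426a66_co.H54.Comb2

/-!
# Closure properties and weak supersaturation
-/

set_option autoImplicit false
set_option linter.unusedSectionVars false

namespace Pool.Agent.Lib.MP_426a66_co.H54

open Finset Classical Pool.Agent.Lib.MP_426a66_co

section

variable {A B A' B' X Y : Type} [Fintype A] [Fintype B] [Fintype A'] [Fintype B'] [Fintype X]
  [Fintype Y]

theorem edges_flip (R : X → Y → Prop) : edges (fun y x => R x y) = edges R := by
  unfold edges
  exact Nat.card_congr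
    { toFun := fun p => ⟨(p.1.2, p.1.1), p.2⟩
      invFun := fun p => ⟨(p.1.2, p.1.1), p.2⟩
      left_inv := fun _ => rfl
      right_inv := fun _ => rfl }

theorem homs_flip (E : A → B → Prop) (R : X → Y → Prop) :
    homs (fun b a => E a b) (fun y x => R x y) = homs E R := by
  unfold homs
  exact Nat.card_congr
    { toFun := fun p => ⟨(p.1.2, p.1.1), fun a b h => p.2 b a h⟩
      invFun := fun p => ⟨(p.1.2, p.1.1), fun b a h => p.2 a b h⟩
      left_inv := fun _ => rfl
      right_inv := fun _ => rfl }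

/-- The two sides may be exchanged. -/
theorem sidorenko_flip (E : A → B → Prop) (hE : Sidorenko E) :
    Sidorenko (fun b a => E a b) := by
  intro X Y _ _ R
  have h := hE Y X (fun y x => R x y)
  rw [edges_flip R, ← homs_flip E (fun y x => R x y)] at h
  rw [edges_flip E]
  calc Fintype.card X ^ Fintype.card B * Fintype.card Y ^ Fintype.card A * edges R ^ edges E
      = Fintype.card Y ^ Fintype.card A * Fintype.card X ^ Fintype.card B *
        edges R ^ edges E := by ring
    _ ≤ _ := h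
    _ = _ := by rw [mul_comm (Fintype.card Y)]

theorem edges_union (E : A → B → Prop) (E' : A' → B' → Prop) :
    edges (union E E') = edges E + edges E' := by
  unfold edges
  rw [← Nat.card_sum]
  refine Nat.card_congr
    { toFun := fun p => match p with
        | ⟨(Sum.inl a, Sum.inl b), h⟩ => Sum.inl ⟨(a, b), h⟩
        | ⟨(Sum.inr a, Sum.inr b), h⟩ => Sum.inr ⟨(a, b), h⟩
        | ⟨(Sum.inl _, Sum.inr _), h⟩ => False.elim h
        | ⟨(Sum.inr _, Sum.inl _), h⟩ => False.elim h
      invFun := fun q => match q with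
        | Sum.inl p => ⟨(Sum.inl p.1.1, Sum.inl p.1.2), p.2⟩
        | Sum.inr p => ⟨(Sum.inr p.1.1, Sum.inr p.1.2), p.2⟩
      left_inv := ?_
      right_inv := ?_ }
  · rintro ⟨⟨a | a, b | b⟩, h⟩
    · rfl
    · exact h.elim
    · exact h.elim
    · rfl
  · rintro (p | p) <;> rfl

theorem homs_union (E : A → B → Prop) (E' : A' → B' → Prop) (R : X → Y → Prop) :
    homs (union E E') R = homs E R * homs E' R := by
  unfold homs
  rw [← Nat.card_prod]
  refine Nat.card_congr
    { toFun := fun p => (⟨(fun a => p.1.1 (Sum.inl a), fun b => p.1.2 (Sum.inl b)),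
          fun a b h => p.2 (Sum.inl a) (Sum.inl b) h⟩,
        ⟨(fun a => p.1.1 (Sum.inr a), fun b => p.1.2 (Sum.inr b)),
          fun a b h => p.2 (Sum.inr a) (Sum.inr b) h⟩)
      invFun := fun q => ⟨(Sum.elim q.1.1.1 q.2.1.1, Sum.elim q.1.1.2 q.2.1.2), ?_⟩
      left_inv := ?_
      right_inv := ?_ }
  · rintro (a | a) (b | b) h
    · exact q.1.2 a b h
    · exact h.elim
    · exact h.elim
    · exact q.2.2 a b h
  · rintro ⟨⟨f, g⟩, h⟩
    apply Subtype.ext
    apply Prod.ext
    · funext a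
      rcases a with a | a <;> rfl
    · funext b
      rcases b with b | b <;> rfl
  · rintro ⟨⟨⟨f, g⟩, h⟩, ⟨⟨f', g'⟩, h'⟩⟩
    rfl

/-- Disjoint unions. -/
theorem sidorenko_union (E : A → B → Prop) (E' : A' → B' → Prop) (hE : Sidorenko E)
    (hE' : Sidorenko E') : Sidorenko (union E E') := by
  intro X Y _ _ R
  have h1 := hE X Y R
  have h2 := hE' X Y R
  rw [edges_union, homs_union, Fintype.card_sum, Fintype.card_sum]
  calc Fintype.card X ^ (Fintype.card A + Fintype.card A') *
        Fintype.card Y ^ (Fintype.card B + Fintype.card B') * edges R ^ (edges E + edges E')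
      = (Fintype.card X ^ Fintype.card A * Fintype.card Y ^ Fintype.card B *
          edges R ^ edges E) *
        (Fintype.card X ^ Fintype.card A' * Fintype.card Y ^ Fintype.card B' *
          edges R ^ edges E') := by ring
    _ ≤ _ := Nat.mul_le_mul h1 h2
    _ = _ := by ring

theorem edges_adj {V : Type} [Fintype V] (G : SimpleGraph V) :
    edges G.Adj = 2 * Nat.card G.edgeSet := by
  rw [edges_deg, Nat.card_eq_fintype_card, ← SimpleGraph.edgeFinset_card,
    ← SimpleGraph.sum_degrees_eq_twice_card_edges]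
  refine Finset.sum_congr rfl (fun v _ => ?_)
  rw [← SimpleGraph.card_neighborFinset_eq_degree]
  congr 1
  ext w
  simp

theorem edges_isGraphOf {W : Type} [Fintype W] (L : SimpleGraph W) (E : A → B → Prop)
    (h : IsGraphOf L E) : edges E = Nat.card L.edgeSet := by
  obtain ⟨e, h1, h2, h3⟩ := h
  have h4 : edges L.Adj = edges E + edges E := by
    unfold edges
    rw [← Nat.card_sum]
    symm
    refine Nat.card_congr (Equiv.ofBijective (fun q => match q with
        | Sum.inl p => (⟨(e (Sum.inl p.1.1), e (Sum.inr p.1.2)), (h1 _ _).mpr p.2⟩ :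
            {p : W × W // L.Adj p.1 p.2})
        | Sum.inr p => ⟨(e (Sum.inr p.1.2), e (Sum.inl p.1.1)), ((h1 _ _).mpr p.2).symm⟩) ⟨?_, ?_⟩)
    · rintro (⟨⟨a, b⟩, h⟩ | ⟨⟨a, b⟩, h⟩) (⟨⟨a', b'⟩, h'⟩ | ⟨⟨a', b'⟩, h'⟩) heq
      · simp only [Subtype.mk.injEq, Prod.mk.injEq, EmbeddingLike.apply_eq_iff_eq,
          Sum.inl.injEq, Sum.inr.injEq] at heq
        obtain ⟨rfl, rfl⟩ := heq
        rfl
      · simp at heq
      · simp at heq
      · simp only [Subtype.mk.injEq, Prod.mk.injEq, EmbeddingLike.apply_eq_iff_eq,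
          Sum.inl.injEq, Sum.inr.injEq] at heq
        obtain ⟨rfl, rfl⟩ := heq
        rfl
    · rintro ⟨⟨i, j⟩, hij⟩
      obtain ⟨i', rfl⟩ := e.surjective i
      obtain ⟨j', rfl⟩ := e.surjective j
      rcases i' with a | b <;> rcases j' with a' | b'
      · exact absurd hij (h2 a a')
      · exact ⟨Sum.inl ⟨(a, b'), (h1 _ _).mp hij⟩, rfl⟩
      · exact ⟨Sum.inr ⟨(a', b), (h1 _ _).mp hij.symm⟩, rfl⟩
      · exact absurd hij (h3 b b')
  rw [edges_adj] at h4
  omega

theorem homs_isGraphOf {W V : Type} [Fintype W] [Fintype V] (L : SimpleGraph W)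
    (E : A → B → Prop) (h : IsGraphOf L E) (G : SimpleGraph V) :
    homs E G.Adj = Nat.card {f : W → V // ∀ i j, L.Adj i j → G.Adj (f i) (f j)} := by
  obtain ⟨e, h1, h2, h3⟩ := h
  unfold homs
  refine Nat.card_congr
    { toFun := fun p => ⟨fun i => Sum.elim p.1.1 p.1.2 (e.symm i), ?_⟩
      invFun := fun f => ⟨(fun a => f.1 (e (Sum.inl a)), fun b => f.1 (e (Sum.inr b))),
        fun a b hab => f.2 _ _ ((h1 a b).mpr hab)⟩
      left_inv := ?_
      right_inv := ?_ }
  · intro i j hij
    obtain ⟨i', rfl⟩ := e.surjective i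
    obtain ⟨j', rfl⟩ := e.surjective j
    simp only [e.symm_apply_apply]
    rcases i' with a | b <;> rcases j' with a' | b'
    · exact absurd hij (h2 a a')
    · exact p.2 a b' ((h1 _ _).mp hij)
    · exact (p.2 a' b ((h1 _ _).mp hij.symm)).symm
    · exact absurd hij (h3 b b')
  · rintro ⟨⟨f, g⟩, h⟩
    apply Subtype.ext
    apply Prod.ext
    · funext a
      simp
    · funext b
      simp
  · rintro ⟨f, hf⟩
    apply Subtype.ext
    funext i
    obtain ⟨i', rfl⟩ := e.surjective i
    simp only [e.symm_apply_apply]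
    rcases i' with a | b <;> rfl

theorem card_isGraphOf {k : ℕ} (L : SimpleGraph (Fin k)) (E : A → B → Prop)
    (h : IsGraphOf L E) : Fintype.card A + Fintype.card B = k := by
  obtain ⟨e, -⟩ := h
  have := Fintype.card_congr e
  rwa [Fintype.card_sum, Fintype.card_fin] at this

theorem descFactorial_ge (n k : ℕ) :
    (n : ℝ) ^ (k + 1) - (k : ℝ) ^ 2 * (n : ℝ) ^ k ≤ (n.descFactorial k : ℝ) * n := by
  induction k with
  | zero => simp
  | succ k ih =>
    rw [Nat.descFactorial_succ]
    push_cast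
    rcases le_or_gt k n with hkn | hkn
    · have h1 : ((n - k : ℕ) : ℝ) = (n : ℝ) - k := by push_cast [hkn]; ring
      rw [h1]
      have h2 : (0 : ℝ) ≤ (n : ℝ) - k := by
        have : (k : ℝ) ≤ n := by exact_mod_cast hkn
        linarith
      have h3 := mul_le_mul_of_nonneg_left ih h2
      have h4 : (0 : ℝ) ≤ (k : ℝ) ^ 3 * (n : ℝ) ^ k := by positivity
      have h5 : (0 : ℝ) ≤ ((k : ℝ) + 1) * (n : ℝ) ^ (k + 1) := by positivity
      calc (n : ℝ) ^ (k + 1 + 1) - ((k : ℝ) + 1) ^ 2 * (n : ℝ) ^ (k + 1)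
          = ((n : ℝ) - k) * ((n : ℝ) ^ (k + 1) - (k : ℝ) ^ 2 * (n : ℝ) ^ k) -
            (k : ℝ) ^ 3 * (n : ℝ) ^ k - ((k : ℝ) + 1) * (n : ℝ) ^ (k + 1) := by ring
        _ ≤ ((n : ℝ) - k) * ((n.descFactorial k : ℝ) * n) := by linarith
        _ = _ := by ring
    · have h1 : n - k = 0 := by omega
      rw [h1]
      have h2 : (n : ℝ) ≤ (k + 1) ^ 2 := by
        have h3 : (n : ℝ) < k := by exact_mod_cast hkn
        have h4 : (0 : ℝ) ≤ k := by positivity
        nlinarith
      have h3 : (0 : ℝ) ≤ (n : ℝ) ^ (k + 1) := by positivity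
      have h4 : (n : ℝ) ^ (k + 1 + 1) = n * (n : ℝ) ^ (k + 1) := by ring
      rw [h4]
      have h5 : (n : ℝ) * (n : ℝ) ^ (k + 1) ≤ (k + 1) ^ 2 * (n : ℝ) ^ (k + 1) := by gcongr
      simp only [Nat.cast_zero, zero_mul]
      linarith

/-- Few maps are not injective. -/
theorem inj_count {V : Type} [Fintype V] (k : ℕ) (p : (Fin k → V) → Prop) :
    ((Nat.card {f : Fin k → V // p f} : ℝ) -
      Nat.card {f : Fin k → V // Function.Injective f ∧ p f}) * Fintype.card V ≤
      (k : ℝ) ^ 2 * (Fintype.card V : ℝ) ^ k := by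
  set n := Fintype.card V with hn
  have h1 : Nat.card {f : Fin k → V // p f} + n.descFactorial k ≤
      Nat.card {f : Fin k → V // Function.Injective f ∧ p f} + n ^ k := by
    have e1 : n.descFactorial k = (univ.filter (fun f : Fin k → V => Function.Injective f)).card := by
      rw [hn, ← Fintype.card_subtype, ← Fintype.card_congr
        (Equiv.subtypeInjectiveEquivEmbedding (Fin k) V).symm, Fintype.card_embedding_eq,
        Fintype.card_fin]
    have e2 : n ^ k = (univ : Finset (Fin k → V)).card := by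
      rw [Finset.card_univ, Fintype.card_fun, Fintype.card_fin]
    rw [Nat.card_eq_fintype_card, Nat.card_eq_fintype_card, Fintype.card_subtype,
      Fintype.card_subtype, e1, e2]
    have h2 := Finset.card_union_add_card_inter
      (univ.filter (fun f : Fin k → V => p f)) (univ.filter (fun f : Fin k → V => Function.Injective f))
    have h3 : (univ.filter (fun f : Fin k → V => p f)) ∩
        (univ.filter (fun f : Fin k → V => Function.Injective f)) =
        univ.filter (fun f : Fin k → V => Function.Injective f ∧ p f) := by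
      ext f
      simp only [mem_inter, mem_filter, mem_univ, true_and]
      exact and_comm
    rw [h3] at h2
    have h4 := Finset.card_le_univ ((univ.filter (fun f : Fin k → V => p f)) ∪
      (univ.filter (fun f : Fin k → V => Function.Injective f)))
    rw [← Finset.card_univ] at h4
    omega
  have h2 : (Nat.card {f : Fin k → V // p f} : ℝ) + n.descFactorial k ≤
      Nat.card {f : Fin k → V // Function.Injective f ∧ p f} + (n : ℝ) ^ k := by
    exact_mod_cast h1
  have h3 := descFactorial_ge n k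
  have h4 : (0 : ℝ) ≤ n := by positivity
  have h5 : ((Nat.card {f : Fin k → V // p f} : ℝ) -
      Nat.card {f : Fin k → V // Function.Injective f ∧ p f}) ≤
      (n : ℝ) ^ k - n.descFactorial k := by linarith
  have h6 := mul_le_mul_of_nonneg_right h5 h4
  rw [pow_succ] at h3
  linarith

/-- Sidorenko's property implies weak supersaturation. -/
theorem weakSupersaturation_of_sidorenko {k : ℕ} (L : SimpleGraph (Fin k)) (E : A → B → Prop)
    (h : IsGraphOf L E) (hE : Sidorenko E) : WeakSupersaturation k L := by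
  set e := Nat.card L.edgeSet with he
  set α : ℝ := ((e : ℝ) + 1)⁻¹ with hα
  have hα0 : 0 < α := by positivity
  have hα1 : α * (e + 1) = 1 := by rw [hα]; field_simp
  set c : ℝ := (k : ℝ) ^ 2 + 1 with hc
  have hc0 : 0 < c := by positivity
  refine ⟨α, hα0, c, hc0, 1 / 2, by norm_num, ?_⟩
  intro V _ G hG
  set n := Fintype.card V with hn
  set M := Nat.card G.edgeSet with hM
  have hS := hE V V G.Adj
  rw [edges_adj, edges_isGraphOf L E h, homs_isGraphOf L E h G, ← hM, ← he, ← hn, ← pow_add,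
    card_isGraphOf L E h] at hS
  have hMn : 2 * M ≤ n * n := by
    rw [← edges_adj G]
    unfold edges
    rw [Nat.card_eq_fintype_card, hn, ← Fintype.card_prod]
    exact Fintype.card_subtype_le _
  have hn0 : 0 < n := by
    rcases Nat.eq_zero_or_pos n with h0 | h0
    · exfalso
      rw [h0] at hMn
      have hM0 : M = 0 := by omega
      rw [hM0, h0] at hG
      have : (0 : ℝ) ≤ c * ((0 : ℕ) : ℝ) ^ (2 - α) :=
        mul_nonneg hc0.le (Real.rpow_nonneg (by simp) _)
      simp only [Nat.cast_zero] at hG this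
      linarith
    · exact h0
  have hnr : (0 : ℝ) < n := by exact_mod_cast hn0
  set hom := Nat.card {f : Fin k → V // ∀ i j, L.Adj i j → G.Adj (f i) (f j)} with hhom
  set inj := Nat.card {f : Fin k → V // Function.Injective f ∧
    ∀ i j, L.Adj i j → G.Adj (f i) (f j)} with hinj
  have hcnt := inj_count k (fun f : Fin k → V => ∀ i j, L.Adj i j → G.Adj (f i) (f j))
  rw [← hhom, ← hinj, ← hn] at hcnt
  set u : ℝ := 2 * M / (n : ℝ) ^ 2 with hu
  have hu0 : 0 ≤ u := by positivity
  have hu1 : u ≤ 1 := by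
    rw [hu, div_le_one (by positivity)]
    have : ((2 * M : ℕ) : ℝ) ≤ ((n * n : ℕ) : ℝ) := by exact_mod_cast hMn
    push_cast at this
    linarith [sq (n : ℝ)]
  have hS' : (n : ℝ) ^ k * u ^ e ≤ hom := by
    have h1 : (n : ℝ) ^ k * (2 * (M : ℝ)) ^ e ≤ hom * ((n : ℝ) * n) ^ e := by exact_mod_cast hS
    rw [hu, div_pow, ← mul_div_assoc, div_le_iff₀ (by positivity), sq]
    exact h1
  -- lower bound for u
  have hpow : (n : ℝ) ^ (2 - α) = (n : ℝ) ^ 2 * ((n : ℝ) ^ α)⁻¹ := by
    rw [Real.rpow_sub hnr, div_eq_mul_inv]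
    norm_num
  have hna : 0 < (n : ℝ) ^ α := Real.rpow_pos_of_pos hnr _
  have hul : 2 * c < u * (n : ℝ) ^ α := by
    rw [hpow] at hG
    have h1 : c * ((n : ℝ) ^ 2 * ((n : ℝ) ^ α)⁻¹) < M := hG
    have h2 : u * (n : ℝ) ^ α = 2 * M * (n : ℝ) ^ α / (n : ℝ) ^ 2 := by rw [hu]; ring
    rw [h2, lt_div_iff₀ (by positivity)]
    have h3 : c * ((n : ℝ) ^ 2 * ((n : ℝ) ^ α)⁻¹) * (2 * (n : ℝ) ^ α) < M * (2 * (n : ℝ) ^ α) := by
      apply mul_lt_mul_of_pos_right h1 (by positivity)
    have h4 : c * ((n : ℝ) ^ 2 * ((n : ℝ) ^ α)⁻¹) * (2 * (n : ℝ) ^ α) = 2 * c * (n : ℝ) ^ 2 := by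
      field_simp
    linarith
  have hnα : 2 * c < (n : ℝ) ^ α := by
    calc 2 * c < u * (n : ℝ) ^ α := hul
      _ ≤ 1 * (n : ℝ) ^ α := by gcongr
      _ = _ := one_mul _
  have h2c : 1 ≤ 2 * c := by rw [hc]; nlinarith [sq_nonneg (k : ℝ)]
  have hun : 2 * (k : ℝ) ^ 2 ≤ u ^ e * n := by
    have h1 : (n : ℝ) = ((n : ℝ) ^ α) ^ (e + 1) := by
      rw [← Real.rpow_natCast, ← Real.rpow_mul hnr.le]
      push_cast
      rw [hα1, Real.rpow_one]
    calc 2 * (k : ℝ) ^ 2 ≤ 2 * c := by rw [hc]; linarith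
      _ ≤ (2 * c) ^ (e + 1) := by
          exact le_self_pow₀ h2c (by omega)
      _ = (2 * c) ^ e * (2 * c) := pow_succ _ _
      _ ≤ (u * (n : ℝ) ^ α) ^ e * (n : ℝ) ^ α := by gcongr
      _ = u ^ e * ((n : ℝ) ^ α) ^ (e + 1) := by rw [mul_pow]; ring
      _ = u ^ e * n := by rw [← h1]
  -- conclusion
  have hfin : (1 / 2) * ((n : ℝ) ^ k * u ^ e) ≤ inj := by
    have h1 : ((hom : ℝ) - inj) * n ≤ (k : ℝ) ^ 2 * (n : ℝ) ^ k := hcnt
    have h2 : (k : ℝ) ^ 2 * (n : ℝ) ^ k ≤ (1 / 2) * (u ^ e * n) * (n : ℝ) ^ k := by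
      have : (k : ℝ) ^ 2 ≤ (1 / 2) * (u ^ e * n) := by linarith
      gcongr
    have h3 : ((hom : ℝ) - inj) * n ≤ ((1 / 2) * ((n : ℝ) ^ k * u ^ e)) * n := by
      calc ((hom : ℝ) - inj) * n ≤ (1 / 2) * (u ^ e * n) * (n : ℝ) ^ k := h1.trans h2
        _ = _ := by ring
    have h4 := le_of_mul_le_mul_right h3 hnr
    linarith
  have hz : (n : ℝ) ^ (2 * (e : ℤ) - (k : ℤ)) = (n : ℝ) ^ (2 * e) / (n : ℝ) ^ k := by
    rw [zpow_sub₀ hnr.ne', zpow_natCast]
    congr 1
  rw [ge_iff_le, hz]
  refine le_trans ?_ hfin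
  have h5 : 1 / 2 * (M : ℝ) ^ e / ((n : ℝ) ^ (2 * e) / (n : ℝ) ^ k) =
      (1 / 2) * ((n : ℝ) ^ k * (M / (n : ℝ) ^ 2) ^ e) := by
    rw [div_pow, ← pow_mul]
    field_simp
  rw [h5]
  have h6 : (M : ℝ) / (n : ℝ) ^ 2 ≤ u := by
    rw [hu]
    gcongr
    have : (0 : ℝ) ≤ M := by positivity
    linarith
  gcongr

theorem sidorenko_extend {C P : Type} [Fintype C] [Fintype P] (E : A → B → Prop)
    (hE : Sidorenko E) (ι : P ↪ A) (hι : Reflective E ι) (F : P → C → Prop) (hF : Enough F) :
    Sidorenko (extend E ι F) := by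
  refine sidorenko_of_MD _ (MD_extend E hE ι hι F (fun m hm => ?_))
  have h1 : Nat.card {c : C // Nat.card {p : P // F p c} = m} =
      (univ.filter (fun c => (nb F c).card = m)).card := by
    rw [Nat.card_eq_fintype_card, Fintype.card_subtype]
    congr 1
    refine Finset.filter_congr (fun c _ => ?_)
    rw [Nat.card_eq_fintype_card, Fintype.card_subtype]
    exact Iff.rfl
  have h2 := hF m hm
  rw [h1, Nat.card_eq_fintype_card] at h2
  exact h2

end

/-- All bigraphs of the class have Sidorenko's property. -/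
theorem built_sidorenko {A B : Type} [iA : Fintype A] [iB : Fintype B] (E : A → B → Prop)
    (h : Built A B E) : Sidorenko E := by
  induction h with
  | base A B E h => exact h
  | flip A B E h ih => exact sidorenko_flip E ih
  | union A B A' B' E E' h h' ih ih' => exact sidorenko_union E E' ih ih'
  | extend A B C P E ι F h hι hF ih => exact sidorenko_extend E ih ι hι F hF

end Pool.Agent.Lib.MP_426a66_co.H54
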